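import Pool.Agent.Helper62.M4.Cell
import Pool.Agent.Helper5.WB.Defs

/-!
# `M4` of project WB is proved
-/

set_option autoImplicit false

namespace Pool.Agent.Helper62.M4

open Finset Pool.Helper5.WB
open Pool.Agent.Helper25.HM (nt)
open scoped ContDiff

lemma te_psi : Te (1 / 2) 2 (fun u => (psi u : ℂ)) := by
  refine ⟨?_, fun u hu => psi_ne (by exact_mod_cast hu)⟩
  have h1 : ContDiff ℝ ∞ psi := by
    unfold psi
    exact (Real.smoothTransition.contDiff.comp (contDiff_const.sub contDiff_id)).sub
      (Real.smoothTransition.contDiff.comp (contDiff_const.sub (contDiff_const.mul contDiff_id)))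
  exact Complex.ofRealCLM.contDiff.comp h1

/-- the fourth moment of the smooth factors in the form of `Helper5/WB/Defs` -/
theorem m4D : Pool.Helper5.WB.M4 := by
  classical
  intro ε hε
  obtain ⟨C, hC, h⟩ := m4cell (by norm_num) te_psi hε
  refine ⟨C, hC, fun q r _ _ hrq T L hT hL s hs => ?_⟩
  have h1 := h q r hrq T L hT hL s hs
  refine le_trans (le_of_eq ?_) h1
  refine sum_congr (by congr) fun p _ => ?_
  congr 2
  refine sum_congr rfl fun n hn => ?_
  rw [mem_Icc] at hn
  have hn0 : (0 : ℝ) < n := by exact_mod_cast hn.1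
  have hn1 : (n : ℂ) ≠ 0 := by exact_mod_cast hn0.ne'
  congr 1
  unfold nt
  rw [Complex.cpow_def_of_ne_zero hn1]
  congr 1
  have : Complex.log (n : ℂ) = ((Real.log n : ℝ) : ℂ) := by
    rw [Complex.ofReal_log hn0.le]
    simp
  rw [this]
  push_cast
  ring

end Pool.Agent.Helper62.M4
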