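import Pool.Agent.Helper62.M4.Red

/-!
# M4-Cell: the fourth moment of the smooth sums over the cells `(χ, [k, k + 1])`

`m4cell`: block (4M) of theorem W (`MP_b6b996_nt`).
-/

set_option autoImplicit false

namespace Pool.Agent.Helper62.M4

open Finset MeasureTheory
open Pool.Agent.Helper25.HM (nt norm_nt nt_add P)

/-- `ψ(u) log u` -/
noncomputable def lgm (ψ : ℝ → ℂ) (u : ℝ) : ℂ := ψ u * ((Real.log u : ℝ) : ℂ)

lemma Te.lgm' {a b : ℝ} {ψ : ℝ → ℂ} (h : Te a b ψ) (ha : 0 < a) : Te a b (lgm ψ) := by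
  apply h.mulP ha
  intro u hu
  exact (Complex.ofRealCLM.contDiff.contDiffAt).comp u (Real.contDiffAt_log.2 hu.ne')

lemma gf_deriv (ψ : ℝ → ℂ) (u t : ℝ) : HasDerivAt (fun t => gf ψ t u) (Complex.I * gf (lgm ψ) t u) t := by
  have h1 : HasDerivAt (fun t : ℝ => ((t * Real.log u : ℝ) : ℂ) * Complex.I) ((Real.log u : ℂ) * Complex.I) t := by
    have h2 : HasDerivAt (fun t : ℝ => t * Real.log u) (1 * Real.log u) t := (hasDerivAt_id t).mul_const _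
    rw [one_mul] at h2
    exact h2.ofReal_comp.mul_const Complex.I
  have h3 := (h1.cexp).const_mul (ψ u)
  have e : Complex.I * gf (lgm ψ) t u =
      ψ u * (Complex.exp (((t * Real.log u : ℝ) : ℂ) * Complex.I) * ((Real.log u : ℂ) * Complex.I)) := by
    unfold gf lgm
    ring
  rw [e]
  exact h3

lemma gf_cont (ψ : ℝ → ℂ) (u : ℝ) : Continuous (fun t => gf ψ t u) :=
  continuous_iff_continuousAt.2 fun t => (gf_deriv ψ u t).continuousAt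

lemma Sq_deriv {a b : ℝ} (ha : 0 < a) {ψ : ℝ → ℂ} (h : Te a b ψ) (q : ℕ) {r : ℕ} (χ : DirichletCharacter ℂ r)
    {L : ℝ} (hL : 0 < L) (t : ℝ) :
    HasDerivAt (fun t => Sq ψ q χ t L) (Complex.I * Sq (lgm ψ) q χ t L) t := by
  have e1 : (fun t => Sq ψ q χ t L) = fun t => ∑ n ∈ Icc 1 ⌊b * L⌋₊,
      (if n.Coprime q then χ (n : ZMod r) * gf ψ t (n / L) else 0) := by
    ext t
    exact Sq_fin ha h q χ t hL
  rw [e1, Sq_fin ha (h.lgm' ha) q χ t hL, mul_sum]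
  apply HasDerivAt.fun_sum
  intro n _
  split_ifs with hc
  · have := (gf_deriv ψ (n / L) t).const_mul (χ (n : ZMod r))
    have e2 : Complex.I * (χ (n : ZMod r) * gf (lgm ψ) t (n / L)) =
        χ (n : ZMod r) * (Complex.I * gf (lgm ψ) t (n / L)) := by ring
    rw [e2]
    exact this
  · rw [mul_zero]
    exact hasDerivAt_const t 0

lemma Sq_cont {a b : ℝ} (ha : 0 < a) {ψ : ℝ → ℂ} (h : Te a b ψ) (q : ℕ) {r : ℕ} (χ : DirichletCharacter ℂ r)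
    {L : ℝ} (hL : 0 < L) : Continuous (fun t => Sq ψ q χ t L) :=
  continuous_iff_continuousAt.2 fun t => (Sq_deriv ha h q χ hL t).continuousAt

/-- Cauchy on the unit interval -/
lemma cauchy01 {g : ℝ → ℝ} (hg : Continuous g) : (∫ w in (0 : ℝ)..1, g w) ^ 2 ≤ ∫ w in (0 : ℝ)..1, g w ^ 2 := by
  obtain ⟨c, hc⟩ : ∃ c, c = ∫ w in (0 : ℝ)..1, g w := ⟨_, rfl⟩
  rw [← hc]
  have h0 : 0 ≤ ∫ w in (0 : ℝ)..1, (g w - c) ^ 2 :=
    intervalIntegral.integral_nonneg (by norm_num) fun w _ => sq_nonneg _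
  have e1 : ∫ w in (0 : ℝ)..1, (g w - c) ^ 2 = (∫ w in (0 : ℝ)..1, g w ^ 2) - 2 * c * c + c ^ 2 := by
    have h1 : ∀ w, (g w - c) ^ 2 = g w ^ 2 - 2 * c * g w + c ^ 2 := fun w => by ring
    simp only [h1]
    rw [intervalIntegral.integral_add, intervalIntegral.integral_sub, intervalIntegral.integral_const_mul, ← hc,
      intervalIntegral.integral_const]
    · simp
    · exact (hg.pow 2).intervalIntegrable _ _
    · exact (continuous_const.mul hg).intervalIntegrable _ _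
    · exact ((hg.pow 2).sub (continuous_const.mul hg)).intervalIntegrable _ _
    · exact continuous_const.intervalIntegrable _ _
  rw [e1] at h0
  nlinarith

lemma cauchy01_4 {g : ℝ → ℝ} (hg : Continuous g) : (∫ w in (0 : ℝ)..1, g w) ^ 4 ≤ ∫ w in (0 : ℝ)..1, g w ^ 4 := by
  have h1 := cauchy01 hg
  have h2 := cauchy01 (hg.pow 2)
  calc (∫ w in (0 : ℝ)..1, g w) ^ 4 = ((∫ w in (0 : ℝ)..1, g w) ^ 2) ^ 2 := by ring
    _ ≤ (∫ w in (0 : ℝ)..1, g w ^ 2) ^ 2 := pow_le_pow_left₀ (sq_nonneg _) h1 2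
    _ ≤ ∫ w in (0 : ℝ)..1, (g w ^ 2) ^ 2 := h2
    _ = _ := by
        congr 1
        ext w
        ring

/-- one cell -/
lemma cell_one {f f1 : ℝ → ℂ} (hd : ∀ t, HasDerivAt f (f1 t) t) (hc : Continuous f1) {k t : ℝ} (h1 : k ≤ t)
    (h2 : t ≤ k + 1) : ‖f t‖ ^ 4 ≤ 8 * ‖f k‖ ^ 4 + 8 * ∫ w in (0 : ℝ)..1, ‖f1 (k + w)‖ ^ 4 := by
  have e1 : ∫ s in k..t, f1 s = f t - f k :=
    intervalIntegral.integral_eq_sub_of_hasDerivAt (fun s _ => hd s) (hc.intervalIntegrable _ _)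
  have e2 : ‖f t - f k‖ ≤ ∫ w in (0 : ℝ)..1, ‖f1 (k + w)‖ := by
    rw [← e1]
    refine (intervalIntegral.norm_integral_le_integral_norm h1).trans ?_
    have e3 : ∫ w in (0 : ℝ)..1, ‖f1 (k + w)‖ = ∫ s in k..(k + 1), ‖f1 s‖ := by
      rw [intervalIntegral.integral_comp_add_left (fun s => ‖f1 s‖) k, add_zero]
    rw [e3, ← intervalIntegral.integral_add_adjacent_intervals (a := k) (b := t) (c := k + 1)
      (hc.norm.intervalIntegrable _ _) (hc.norm.intervalIntegrable _ _)]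
    have := intervalIntegral.integral_nonneg (a := t) (b := k + 1) (f := fun s => ‖f1 s‖) (μ := volume) h2
      (fun _ _ => norm_nonneg _)
    linarith
  have e4 : ‖f t‖ ≤ ‖f k‖ + ∫ w in (0 : ℝ)..1, ‖f1 (k + w)‖ := by
    have : ‖f t‖ ≤ ‖f k‖ + ‖f t - f k‖ := by
      have := norm_add_le (f k) (f t - f k)
      rwa [add_sub_cancel] at this
    linarith
  have hc' : Continuous (fun w : ℝ => ‖f1 (k + w)‖) := (hc.comp (by fun_prop)).norm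
  have e5 := cauchy01_4 hc'
  have hI0 : 0 ≤ ∫ w in (0 : ℝ)..1, ‖f1 (k + w)‖ :=
    intervalIntegral.integral_nonneg (by norm_num) fun _ _ => norm_nonneg _
  have e6 : ∀ x y : ℝ, (x + y) ^ 4 ≤ 8 * x ^ 4 + 8 * y ^ 4 := by
    intro x y
    have a1 : (x + y) ^ 2 ≤ 2 * x ^ 2 + 2 * y ^ 2 := by nlinarith [sq_nonneg (x - y)]
    have a2 : (2 * x ^ 2 + 2 * y ^ 2) ^ 2 ≤ 8 * x ^ 4 + 8 * y ^ 4 := by nlinarith [sq_nonneg (x ^ 2 - y ^ 2)]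
    calc (x + y) ^ 4 = ((x + y) ^ 2) ^ 2 := by ring
      _ ≤ (2 * x ^ 2 + 2 * y ^ 2) ^ 2 := pow_le_pow_left₀ (sq_nonneg _) a1 2
      _ ≤ _ := a2
  calc ‖f t‖ ^ 4 ≤ (‖f k‖ + ∫ w in (0 : ℝ)..1, ‖f1 (k + w)‖) ^ 4 := pow_le_pow_left₀ (norm_nonneg _) e4 4
    _ ≤ 8 * ‖f k‖ ^ 4 + 8 * (∫ w in (0 : ℝ)..1, ‖f1 (k + w)‖) ^ 4 := e6 _ _
    _ ≤ _ := by linarith

open Classical in
/-- the fourth moment with one shift, all characters modulo `r`, the `n` coprime to `q` -/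
theorem shift4 {a b : ℝ} (ha : 0 < a) {ψ : ℝ → ℂ} (h : Te a b ψ) {ε : ℝ} (hε : 0 < ε) : ∃ C : ℝ, 0 < C ∧
    ∀ (X : ℝ) (q r : ℕ) [NeZero q] [NeZero r] (T : ℕ) (L w : ℝ), r ∣ q → 1 ≤ X → 1 ≤ T → 0 < L → 0 ≤ w → w ≤ 1 →
    (q : ℝ) ≤ X → (T : ℝ) ≤ X → L ≤ X →
    ∑ p ∈ ((univ : Finset (DirichletCharacter ℂ r)) ×ˢ Icc (-(T : ℤ)) T).filter
        (fun p => ¬ (p.1 = 1 ∧ |(p.2 : ℝ)| ≤ X ^ ε)), ‖Sq ψ q p.1 (p.2 + w) L‖ ^ 4 ≤
      C * X ^ ε * (r * T * L ^ 2) := by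
  obtain ⟨C1, hC1, h1⟩ := prim4 ha h (ε := ε / 6) (by positivity)
  obtain ⟨C2, hC2, h2⟩ := divs (e := ε / 6) (D := 1) (by positivity) one_pos
  refine ⟨C1 * C2 ^ 5, by positivity, fun X q r _ _ T L w hrq hX hT hL hw0 hw1 hqX hTX hLX => ?_⟩
  have hX0 : 0 < X := by linarith
  have hq : q ≠ 0 := NeZero.ne q
  have hr : r ≠ 0 := NeZero.ne r
  have hr0 : (0 : ℝ) < r := by exact_mod_cast Nat.pos_of_ne_zero hr
  have hT1 : (1 : ℝ) ≤ T := by exact_mod_cast hT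
  obtain ⟨Y, hY⟩ : ∃ Y : ℝ, Y = X ^ (ε / 6) := ⟨_, rfl⟩
  have hY1 : 1 ≤ Y := by rw [hY]; exact Real.one_le_rpow hX (by positivity)
  have hXY : X ^ ε = Y ^ 6 := by
    rw [hY, ← Real.rpow_natCast, ← Real.rpow_mul hX0.le]
    congr 1
    push_cast
    ring
  have hYε : Y ≤ X ^ ε := by
    rw [hXY]
    exact le_self_pow₀ hY1 (by norm_num)
  have hX6 : X ≤ 1 * X ^ 6 := by
    rw [one_mul]
    exact le_self_pow₀ hX (by norm_num)
  have hτq : (q.divisors.card : ℝ) ≤ C2 * Y := by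
    rw [hY]
    exact h2 X q hX hq (hqX.trans hX6)
  have hrX : (r : ℝ) ≤ X := by
    have : (r : ℝ) ≤ q := by exact_mod_cast Nat.le_of_dvd (Nat.pos_of_ne_zero hq) hrq
    linarith
  have hτr : (r.divisors.card : ℝ) ≤ C2 * Y := by
    rw [hY]
    exact h2 X r hX hr (hrX.trans hX6)
  obtain ⟨S, hS⟩ : ∃ S, S = ((univ : Finset (DirichletCharacter ℂ r)) ×ˢ Icc (-(T : ℤ)) T).filter
        (fun p => ¬ (p.1 = 1 ∧ |(p.2 : ℝ)| ≤ X ^ ε)) := ⟨_, rfl⟩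
  rw [← hS]
  have hd4 : ∀ d ∈ q.divisors, ∑ p ∈ S, ‖Fs ψ p.1.primitiveCharacter (p.2 + w) (L / d)‖ ^ 4 ≤
      C2 * Y * (C1 * Y * (r * T * L ^ 2)) := by
    intro d hd
    have hd1 : 1 ≤ d := Nat.pos_of_mem_divisors hd
    have hd1r : (1 : ℝ) ≤ d := by exact_mod_cast hd1
    have hLd0 : 0 < L / d := by positivity
    have hLd : L / d ≤ L := div_le_self hL.le hd1r
    obtain ⟨F, hF⟩ : ∃ F : (q : ℕ) → DirichletCharacter ℂ q → ℝ, F = fun q χ =>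
      ∑ k ∈ (Icc (-(T : ℤ)) (T : ℤ)).filter (fun k : ℤ => ¬ (q = 1 ∧ |(k : ℝ)| ≤ Y)), ‖Fs ψ χ ((k : ℝ) + w) (L / d)‖ ^ 4 :=
        ⟨_, rfl⟩
    have hF0 : ∀ q χ, 0 ≤ F q χ := by
      intro q χ
      rw [hF]
      exact sum_nonneg fun _ _ => by positivity
    have e1 : ∑ p ∈ S, ‖Fs ψ p.1.primitiveCharacter (p.2 + w) (L / d)‖ ^ 4 ≤
        ∑ χ : DirichletCharacter ℂ r, F χ.conductor χ.primitiveCharacter := by
      rw [hF]
      simp only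
      simp_rw [sum_filter]
      rw [hS, sum_filter, sum_product]
      apply sum_le_sum
      intro χ _
      apply sum_le_sum
      intro k _
      by_cases h3 : χ = 1 ∧ |(k : ℝ)| ≤ X ^ ε
      · rw [if_neg (by simpa using h3)]
        split_ifs <;> positivity
      · rw [if_pos h3, if_pos]
        rintro ⟨g1, g2⟩
        exact h3 ⟨(DirichletCharacter.eq_one_iff_conductor_eq_one).2 g1, g2.trans hYε⟩
    refine e1.trans ((regroup62 F hF0).trans ?_)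
    have e2 : ∀ q' ∈ r.divisors, ∑ χ ∈ (Finset.univ : Finset (DirichletCharacter ℂ q')).filter (fun χ => χ.IsPrimitive),
        F q' χ ≤ C1 * Y * (r * T * L ^ 2) := by
      intro q' hq'
      have hq'0 : q' ≠ 0 := (Nat.pos_of_mem_divisors hq').ne'
      have : NeZero q' := ⟨hq'0⟩
      have hq'r : (q' : ℝ) ≤ r := by
        exact_mod_cast Nat.le_of_dvd (Nat.pos_of_ne_zero hr) (Nat.dvd_of_mem_divisors hq')
      have e3 := h1 X q' T (L / d) w hX hT hLd0 hw0 hw1 (hq'r.trans hrX) hTX (hLd.trans hLX)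
      rw [← hY] at e3
      have e4 : ∑ χ ∈ (Finset.univ : Finset (DirichletCharacter ℂ q')).filter (fun χ => χ.IsPrimitive), F q' χ =
          ∑ p ∈ (((univ : Finset (DirichletCharacter ℂ q')).filter (fun χ => χ.IsPrimitive)) ×ˢ Icc (-(T : ℤ)) T).filter
            (fun p => ¬ (q' = 1 ∧ |(p.2 : ℝ)| ≤ Y)), ‖Fs ψ p.1 (p.2 + w) (L / d)‖ ^ 4 := by
        have e5 : ∑ p ∈ (((univ : Finset (DirichletCharacter ℂ q')).filter (fun χ => χ.IsPrimitive)) ×ˢ Icc (-(T : ℤ)) T).filter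
            (fun p => ¬ (q' = 1 ∧ |(p.2 : ℝ)| ≤ Y)), ‖Fs ψ p.1 (p.2 + w) (L / d)‖ ^ 4 =
            ∑ p ∈ ((univ : Finset (DirichletCharacter ℂ q')).filter (fun χ => χ.IsPrimitive)) ×ˢ Icc (-(T : ℤ)) T,
              (if ¬ (q' = 1 ∧ |(p.2 : ℝ)| ≤ Y) then ‖Fs ψ p.1 (p.2 + w) (L / d)‖ ^ 4 else 0) := sum_filter _ _
        rw [e5, sum_product, hF]
        simp only
        refine sum_congr (by congr) fun χ _ => ?_
        rw [sum_filter]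
      rw [e4]
      refine e3.trans ?_
      have hq'0r : (0 : ℝ) ≤ q' := Nat.cast_nonneg _
      gcongr
    refine (sum_le_sum e2).trans ?_
    rw [sum_const, nsmul_eq_mul]
    gcongr
  have hpt : ∀ p ∈ S, ‖Sq ψ q p.1 (p.2 + w) L‖ ^ 4 ≤
      (q.divisors.card : ℝ) ^ 3 * ∑ d ∈ q.divisors, ‖Fs ψ p.1.primitiveCharacter (p.2 + w) (L / d)‖ ^ 4 := by
    intro p _
    calc ‖Sq ψ q p.1 (p.2 + w) L‖ ^ 4 ≤ (∑ d ∈ q.divisors, ‖Fs ψ p.1.primitiveCharacter (p.2 + w) (L / d)‖) ^ 4 :=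
          pow_le_pow_left₀ (norm_nonneg _) (Sq_le ha h hrq p.1 _ hL) 4
      _ ≤ _ := sum_pow4 _ _
  refine (sum_le_sum hpt).trans ?_
  rw [← mul_sum, sum_comm]
  have e5 : ∑ d ∈ q.divisors, ∑ p ∈ S, ‖Fs ψ p.1.primitiveCharacter (p.2 + w) (L / d)‖ ^ 4 ≤
      (C2 * Y) * (C2 * Y * (C1 * Y * (r * T * L ^ 2))) := by
    refine (sum_le_sum hd4).trans ?_
    rw [sum_const, nsmul_eq_mul]
    gcongr
  calc (q.divisors.card : ℝ) ^ 3 * ∑ d ∈ q.divisors, ∑ p ∈ S, ‖Fs ψ p.1.primitiveCharacter (p.2 + w) (L / d)‖ ^ 4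
      ≤ (C2 * Y) ^ 3 * ((C2 * Y) * (C2 * Y * (C1 * Y * (r * T * L ^ 2)))) := by gcongr
    _ = C1 * C2 ^ 5 * Y ^ 6 * (r * T * L ^ 2) := by ring
    _ = _ := by rw [hXY]

open Classical in
/-- The fourth moment of the smooth sums over the cells. -/
theorem m4cell {a b : ℝ} (ha : 0 < a) {ψ : ℝ → ℂ} (h : Te a b ψ) {ε : ℝ} (hε : 0 < ε) : ∃ C : ℝ, 0 < C ∧
    ∀ (q r : ℕ) [NeZero q] [NeZero r], r ∣ q → ∀ (T : ℕ) (L : ℝ), 1 ≤ T → 1 ≤ L →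
    ∀ t : DirichletCharacter ℂ r × ℤ → ℝ, (∀ p, (p.2 : ℝ) ≤ t p ∧ t p ≤ p.2 + 1) →
    ∑ p ∈ ((univ : Finset (DirichletCharacter ℂ r)) ×ˢ Icc (-(T : ℤ)) T).filter
        (fun p => ¬ (p.1 = 1 ∧ |(p.2 : ℝ)| ≤ ((q : ℝ) * T * L) ^ ε)),
      ‖∑ n ∈ Icc 1 ⌊b * L⌋₊, ψ (n / L) * (if n.Coprime q then 1 else 0) * p.1 (n : ZMod r) * nt n (t p)‖ ^ 4 ≤
      C * ((q : ℝ) * T * L) ^ ε * (r * T * L ^ 2) := by
  obtain ⟨C1, hC1, h1⟩ := shift4 ha h hε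
  obtain ⟨C2, hC2, h2⟩ := shift4 ha (h.lgm' ha) hε
  refine ⟨8 * C1 + 8 * C2, by positivity, fun q r _ _ hrq T L hT hL t ht => ?_⟩
  have hq1 : (1 : ℝ) ≤ q := by exact_mod_cast Nat.one_le_iff_ne_zero.2 (NeZero.ne q)
  have hT1 : (1 : ℝ) ≤ T := by exact_mod_cast hT
  have hL0 : 0 < L := by linarith
  have hqT : 1 ≤ (q : ℝ) * T := by nlinarith
  obtain ⟨X, hX⟩ : ∃ X : ℝ, X = (q : ℝ) * T * L := ⟨_, rfl⟩
  have hX1 : 1 ≤ X := by rw [hX]; nlinarith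
  have hqX : (q : ℝ) ≤ X := by
    rw [hX]
    calc (q : ℝ) = q * 1 * 1 := by ring
      _ ≤ q * T * L := by gcongr
  have hTX : (T : ℝ) ≤ X := by
    rw [hX]
    calc (T : ℝ) = 1 * T * 1 := by ring
      _ ≤ q * T * L := by gcongr
  have hLX : L ≤ X := by
    rw [hX]
    calc L = 1 * L := by ring
      _ ≤ q * T * L := by gcongr
  rw [← hX]
  obtain ⟨S, hS⟩ : ∃ S, S = ((univ : Finset (DirichletCharacter ℂ r)) ×ˢ Icc (-(T : ℤ)) T).filter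
        (fun p => ¬ (p.1 = 1 ∧ |(p.2 : ℝ)| ≤ X ^ ε)) := ⟨_, rfl⟩
  have g1 := h1 X q r T L 0 hrq hX1 hT hL0 le_rfl zero_le_one hqX hTX hLX
  have g2 : ∀ w : ℝ, 0 ≤ w → w ≤ 1 → ∑ p ∈ S, ‖Sq (lgm ψ) q p.1 (p.2 + w) L‖ ^ 4 ≤ C2 * X ^ ε * (r * T * L ^ 2) := by
    intro w hw0 hw1
    rw [hS]
    exact h2 X q r T L w hrq hX1 hT hL0 hw0 hw1 hqX hTX hLX
  rw [← hS] at g1 ⊢
  have hpt : ∀ p ∈ S, ‖∑ n ∈ Icc 1 ⌊b * L⌋₊, ψ (n / L) * (if n.Coprime q then 1 else 0) * p.1 (n : ZMod r) *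
      nt n (t p)‖ ^ 4 ≤ 8 * ‖Sq ψ q p.1 (p.2 + 0) L‖ ^ 4 +
        8 * ∫ w in (0 : ℝ)..1, ‖Sq (lgm ψ) q p.1 (p.2 + w) L‖ ^ 4 := by
    intro p _
    rw [← Sq_eq ha h q p.1 (t p) hL0, add_zero]
    have g3 := cell_one (f := fun t => Sq ψ q p.1 t L) (f1 := fun t => Complex.I * Sq (lgm ψ) q p.1 t L)
      (Sq_deriv ha h q p.1 hL0) (continuous_const.mul (Sq_cont ha (h.lgm' ha) q p.1 hL0)) (ht p).1 (ht p).2
    have e : ∀ w : ℝ, ‖Complex.I * Sq (lgm ψ) q p.1 (p.2 + w) L‖ = ‖Sq (lgm ψ) q p.1 (p.2 + w) L‖ := by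
      intro w
      rw [norm_mul, Complex.norm_I, one_mul]
    simp only [e] at g3
    exact g3
  refine (sum_le_sum hpt).trans ?_
  rw [sum_add_distrib, ← mul_sum, ← mul_sum]
  have hcont : ∀ p ∈ S, Continuous (fun w : ℝ => ‖Sq (lgm ψ) q p.1 (p.2 + w) L‖ ^ 4) := by
    intro p _
    exact (((Sq_cont ha (h.lgm' ha) q p.1 hL0).comp (by fun_prop : Continuous fun w : ℝ => (p.2 : ℝ) + w)).norm.pow 4)
  have hint : ∀ p ∈ S, IntervalIntegrable (fun w : ℝ => ‖Sq (lgm ψ) q p.1 (p.2 + w) L‖ ^ 4) volume 0 1 :=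
    fun p hp => (hcont p hp).intervalIntegrable _ _
  rw [← intervalIntegral.integral_finsetSum hint]
  have g4 : ∫ w in (0 : ℝ)..1, ∑ p ∈ S, ‖Sq (lgm ψ) q p.1 (p.2 + w) L‖ ^ 4 ≤ C2 * X ^ ε * (r * T * L ^ 2) := by
    have g5 := intervalIntegral.integral_mono_on (a := (0 : ℝ)) (b := 1) (μ := volume)
      (f := fun w => ∑ p ∈ S, ‖Sq (lgm ψ) q p.1 (p.2 + w) L‖ ^ 4) (g := fun _ => C2 * X ^ ε * (r * T * L ^ 2))
      zero_le_one ((continuous_finsetSum S hcont).intervalIntegrable _ _) (continuous_const.intervalIntegrable _ _)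
      (fun w hw => g2 w hw.1 hw.2)
    rw [intervalIntegral.integral_const, sub_zero, one_smul] at g5
    exact g5
  calc 8 * ∑ p ∈ S, ‖Sq ψ q p.1 (p.2 + 0) L‖ ^ 4 + 8 * ∫ w in (0 : ℝ)..1, ∑ p ∈ S, ‖Sq (lgm ψ) q p.1 (p.2 + w) L‖ ^ 4
      ≤ 8 * (C1 * X ^ ε * (r * T * L ^ 2)) + 8 * (C2 * X ^ ε * (r * T * L ^ 2)) := by linarith
    _ = _ := by ring

end Pool.Agent.Helper62.M4
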