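import Mathlib

/-!
# M4-Four: test functions `ψ(u) u^{iτ}` and the decay of their Fourier transforms

`decay`: `|ξ|^A ‖𝓕 (gf ψ τ) ξ‖ ≤ C (1 + |τ|)^A`. `mzero`: `(1 + |τ|)^A ‖𝓕 (gf ψ τ) 0‖ ≤ C`.
-/

set_option autoImplicit false

namespace Pool.Agent.Helper62.M4

open Complex MeasureTheory Filter Topology
open scoped FourierTransform ContDiff

/-- test functions with support in `[a, b]` -/
structure Te (a b : ℝ) (ψ : ℝ → ℂ) : Prop where
  smooth : ContDiff ℝ ∞ ψ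
  supp : ∀ u, ψ u ≠ 0 → a ≤ u ∧ u ≤ b

/-- the function `ψ(u) u^{iτ}` -/
noncomputable def gf (ψ : ℝ → ℂ) (τ u : ℝ) : ℂ := ψ u * cexp ((τ * Real.log u : ℝ) * I)

lemma norm_gf (ψ : ℝ → ℂ) (τ u : ℝ) : ‖gf ψ τ u‖ = ‖ψ u‖ := by
  unfold gf
  rw [norm_mul, Complex.norm_exp_ofReal_mul_I, mul_one]

namespace Te

variable {a b : ℝ} {ψ : ℝ → ℂ}

lemma eq_zero (h : Te a b ψ) {u : ℝ} (hu : u < a ∨ b < u) : ψ u = 0 := by
  by_contra h0
  have := h.supp u h0
  rcases hu with h1 | h1 <;> linarith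

lemma hcs (h : Te a b ψ) : HasCompactSupport ψ := by
  apply HasCompactSupport.intro (K := Set.Icc a b) isCompact_Icc
  intro u hu
  by_contra h0
  exact hu ⟨(h.supp u h0).1, (h.supp u h0).2⟩

lemma tsupp (h : Te a b ψ) : tsupport ψ ⊆ Set.Icc a b := by
  apply closure_minimal _ isClosed_Icc
  intro u hu
  exact ⟨(h.supp u hu).1, (h.supp u hu).2⟩

lemma deriv' (h : Te a b ψ) : Te a b (deriv ψ) := by
  refine ⟨?_, fun u hu => ?_⟩
  · have := h.smooth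
    exact (contDiff_infty_iff_deriv.1 this).2
  · have h1 : u ∈ tsupport ψ := support_deriv_subset hu
    exact ⟨(h.tsupp h1).1, (h.tsupp h1).2⟩

/-- multiplication by a function smooth on the positive half line -/
lemma mulP (h : Te a b ψ) (ha : 0 < a) {φ : ℝ → ℂ} (hφ : ∀ u, 0 < u → ContDiffAt ℝ ∞ φ u) :
    Te a b (fun u => ψ u * φ u) := by
  refine ⟨?_, fun u hu => h.supp u (left_ne_zero_of_mul hu)⟩
  rw [contDiff_iff_contDiffAt]
  intro u
  rcases lt_or_ge 0 u with hu | hu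
  · exact h.smooth.contDiffAt.mul (hφ u hu)
  · have h1 : (fun u => ψ u * φ u) =ᶠ[𝓝 u] fun _ => 0 := by
      filter_upwards [Iio_mem_nhds (lt_of_le_of_lt hu ha)] with v hv
      rw [h.eq_zero (Or.inl hv), zero_mul]
    exact contDiffAt_const.congr_of_eventuallyEq h1

lemma div_id (h : Te a b ψ) (ha : 0 < a) : Te a b (fun u => ψ u * ((u : ℂ)⁻¹)) := by
  apply h.mulP ha
  intro u hu
  have h1 : (fun u : ℝ => ((u : ℂ))⁻¹) = fun u : ℝ => ((u⁻¹ : ℝ) : ℂ) := by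
    ext u
    push_cast
    rfl
  rw [h1]
  exact (Complex.ofRealCLM.contDiff.contDiffAt).comp u (contDiffAt_inv ℝ hu.ne')

lemma mul_id (h : Te a b ψ) (ha : 0 < a) : Te a b (fun u => ψ u * (u : ℂ)) := by
  apply h.mulP ha
  intro u _
  exact Complex.ofRealCLM.contDiff.contDiffAt

lemma conj' (h : Te a b ψ) : Te a b (fun u => (starRingEnd ℂ) (ψ u)) := by
  refine ⟨?_, fun u hu => h.supp u (fun h0 => hu (by simp [h0]))⟩
  exact Complex.conjCLE.contDiff.comp h.smooth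

lemma gf' (h : Te a b ψ) (ha : 0 < a) (τ : ℝ) : Te a b (gf ψ τ) := by
  apply h.mulP ha
  intro u hu
  have h1 : ContDiffAt ℝ ∞ (fun u : ℝ => τ * Real.log u) u :=
    contDiffAt_const.mul (Real.contDiffAt_log.2 hu.ne')
  have h2 : ContDiffAt ℝ ∞ (fun u : ℝ => ((τ * Real.log u : ℝ) : ℂ)) u :=
    (Complex.ofRealCLM.contDiff.contDiffAt).comp u h1
  exact (h2.mul contDiffAt_const).cexp

lemma integrable (h : Te a b ψ) : Integrable ψ := h.smooth.continuous.integrable_of_hasCompactSupport h.hcs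

end Te

lemma deriv_gf {a b : ℝ} (ha : 0 < a) {ψ : ℝ → ℂ} (h : Te a b ψ) (τ : ℝ) :
    deriv (gf ψ τ) = fun u => gf (deriv ψ) τ u + (τ * I) * gf (fun u => ψ u * ((u : ℂ)⁻¹)) τ u := by
  ext u
  rcases lt_or_ge 0 u with hu | hu
  · have h1 : HasDerivAt ψ (deriv ψ u) u :=
      (h.smooth.differentiable (by simp)).differentiableAt.hasDerivAt
    have h2 : HasDerivAt (fun u : ℝ => τ * Real.log u) (τ * u⁻¹) u := (Real.hasDerivAt_log hu.ne').const_mul τ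
    have h3 : HasDerivAt (fun u : ℝ => ((τ * Real.log u : ℝ) : ℂ) * I) (((τ * u⁻¹ : ℝ) : ℂ) * I) u :=
      h2.ofReal_comp.mul_const I
    have h4 := h1.mul h3.cexp
    have h5 : HasDerivAt (gf ψ τ) (deriv ψ u * cexp (((τ * Real.log u : ℝ) : ℂ) * I) +
        ψ u * (cexp (((τ * Real.log u : ℝ) : ℂ) * I) * (((τ * u⁻¹ : ℝ) : ℂ) * I))) u := h4
    rw [h5.deriv]
    unfold gf
    push_cast
    ring
  · have h1 : gf ψ τ =ᶠ[𝓝 u] fun _ => 0 := by
      filter_upwards [Iio_mem_nhds (lt_of_le_of_lt hu ha)] with v hv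
      unfold gf
      rw [h.eq_zero (Or.inl hv), zero_mul]
    have h2 : u < a := lt_of_le_of_lt hu ha
    rw [h1.deriv_eq, deriv_const]
    simp only [gf]
    rw [h.eq_zero (Or.inl h2), h.deriv'.eq_zero (Or.inl h2)]
    ring

/-- decay of the Fourier transform -/
theorem decay {a b : ℝ} (ha : 0 < a) (A : ℕ) : ∀ ψ : ℝ → ℂ, Te a b ψ → ∃ C : ℝ, 0 ≤ C ∧ ∀ τ ξ : ℝ,
    |ξ| ^ A * ‖𝓕 (gf ψ τ) ξ‖ ≤ C * (1 + |τ|) ^ A := by
  induction A with
  | zero =>
    intro ψ h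
    refine ⟨∫ u, ‖ψ u‖, integral_nonneg fun _ => norm_nonneg _, fun τ ξ => ?_⟩
    rw [pow_zero, pow_zero, one_mul, mul_one, Real.fourier_eq']
    refine (norm_integral_le_integral_norm _).trans (le_of_eq ?_)
    apply integral_congr_ae
    filter_upwards with u
    rw [norm_smul, norm_gf]
    have : ‖cexp (((-2 * Real.pi * inner ℝ u ξ : ℝ) : ℂ) * I)‖ = 1 := Complex.norm_exp_ofReal_mul_I _
    rw [this, one_mul]
  | succ A ih =>
    intro ψ h
    obtain ⟨C1, hC1, h1⟩ := ih _ h.deriv'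
    obtain ⟨C2, hC2, h2⟩ := ih _ (h.div_id ha)
    refine ⟨C1 + C2, by linarith, fun τ ξ => ?_⟩
    have hg := h.gf' ha τ
    have e1 := Real.fourier_deriv hg.integrable (hg.smooth.differentiable (by simp)) hg.deriv'.integrable
    have e2 : 𝓕 (deriv (gf ψ τ)) ξ = (2 * Real.pi * I * ξ) • 𝓕 (gf ψ τ) ξ := congrFun e1 ξ
    have e3 : 𝓕 (deriv (gf ψ τ)) ξ = 𝓕 (gf (deriv ψ) τ) ξ +
        (τ * I) * 𝓕 (gf (fun u => ψ u * ((u : ℂ)⁻¹)) τ) ξ := by
      rw [deriv_gf ha h τ]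
      have i1 : Integrable (gf (deriv ψ) τ) := (h.deriv'.gf' ha τ).integrable
      have i2 : Integrable (gf (fun u => ψ u * ((u : ℂ)⁻¹)) τ) := ((h.div_id ha).gf' ha τ).integrable
      rw [Real.fourier_eq', Real.fourier_eq', Real.fourier_eq', ← integral_const_mul]
      have c1 : Integrable (fun v : ℝ => cexp (((-2 * Real.pi * inner ℝ v ξ : ℝ) : ℂ) * I) • gf (deriv ψ) τ v) := by
        refine i1.bdd_mul (c := 1) ?_ ?_
        · apply Continuous.aestronglyMeasurable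
          fun_prop
        · filter_upwards with v
          exact (Complex.norm_exp_ofReal_mul_I _).le
      have c2 : Integrable (fun v : ℝ => (τ * I) * (cexp (((-2 * Real.pi * inner ℝ v ξ : ℝ) : ℂ) * I) •
          gf (fun u => ψ u * ((u : ℂ)⁻¹)) τ v)) := by
        apply Integrable.const_mul
        refine i2.bdd_mul (c := 1) ?_ ?_
        · apply Continuous.aestronglyMeasurable
          fun_prop
        · filter_upwards with v
          exact (Complex.norm_exp_ofReal_mul_I _).le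
      rw [← integral_add c1 c2]
      apply integral_congr_ae
      filter_upwards with v
      simp only [smul_eq_mul]
      ring
    have e4 : |ξ| * ‖𝓕 (gf ψ τ) ξ‖ ≤ ‖𝓕 (gf (deriv ψ) τ) ξ‖ + |τ| * ‖𝓕 (gf (fun u => ψ u * ((u : ℂ)⁻¹)) τ) ξ‖ := by
      have e5 : ‖(2 * Real.pi * I * ξ) • 𝓕 (gf ψ τ) ξ‖ = 2 * Real.pi * (|ξ| * ‖𝓕 (gf ψ τ) ξ‖) := by
        rw [norm_smul, norm_mul, norm_mul, norm_mul, Complex.norm_I, Complex.norm_real, Complex.norm_real]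
        simp only [Real.norm_eq_abs, Complex.norm_ofNat, mul_one]
        rw [abs_of_pos Real.pi_pos]
        ring
      have e6 : ‖𝓕 (deriv (gf ψ τ)) ξ‖ ≤ ‖𝓕 (gf (deriv ψ) τ) ξ‖ +
          |τ| * ‖𝓕 (gf (fun u => ψ u * ((u : ℂ)⁻¹)) τ) ξ‖ := by
        rw [e3]
        refine (norm_add_le _ _).trans ?_
        rw [norm_mul, norm_mul, Complex.norm_I, mul_one, Complex.norm_real, Real.norm_eq_abs]
      rw [e2, e5] at e6
      have e7 : 0 ≤ |ξ| * ‖𝓕 (gf ψ τ) ξ‖ := by positivity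
      have := Real.pi_gt_three
      nlinarith
    have hτ : |τ| ≤ 1 + |τ| := by linarith
    have g1 := h1 τ ξ
    have g2 := h2 τ ξ
    have hp : 0 ≤ |ξ| ^ A := by positivity
    calc |ξ| ^ (A + 1) * ‖𝓕 (gf ψ τ) ξ‖ = |ξ| ^ A * (|ξ| * ‖𝓕 (gf ψ τ) ξ‖) := by ring
      _ ≤ |ξ| ^ A * (‖𝓕 (gf (deriv ψ) τ) ξ‖ + |τ| * ‖𝓕 (gf (fun u => ψ u * ((u : ℂ)⁻¹)) τ) ξ‖) :=
          mul_le_mul_of_nonneg_left e4 hp
      _ = |ξ| ^ A * ‖𝓕 (gf (deriv ψ) τ) ξ‖ + |τ| * (|ξ| ^ A * ‖𝓕 (gf (fun u => ψ u * ((u : ℂ)⁻¹)) τ) ξ‖) := by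
          ring
      _ ≤ C1 * (1 + |τ|) ^ A + (1 + |τ|) * (C2 * (1 + |τ|) ^ A) := by
          gcongr
      _ ≤ C1 * (1 + |τ|) ^ (A + 1) + (1 + |τ|) * (C2 * (1 + |τ|) ^ A) := by
          have : (1 + |τ|) ^ A ≤ (1 + |τ|) ^ (A + 1) :=
            pow_le_pow_right₀ (by linarith [abs_nonneg τ]) (by omega)
          gcongr
      _ = _ := by ring

/-- the value at zero: `∫ ψ(u) u^{iτ} du` decays in `τ` -/
theorem mzero {a b : ℝ} (ha : 0 < a) (A : ℕ) : ∀ ψ : ℝ → ℂ, Te a b ψ → ∃ C : ℝ, 0 ≤ C ∧ ∀ τ : ℝ,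
    (1 + |τ|) ^ A * ‖∫ u, gf ψ τ u‖ ≤ C := by
  have base : ∀ ψ : ℝ → ℂ, Te a b ψ → ∀ τ : ℝ, ‖∫ u, gf ψ τ u‖ ≤ ∫ u, ‖ψ u‖ := by
    intro ψ _ τ
    refine (norm_integral_le_integral_norm _).trans (le_of_eq ?_)
    apply integral_congr_ae
    filter_upwards with u
    exact norm_gf ψ τ u
  induction A with
  | zero =>
    intro ψ h
    refine ⟨∫ u, ‖ψ u‖, integral_nonneg fun _ => norm_nonneg _, fun τ => ?_⟩
    rw [pow_zero, one_mul]
    exact base ψ h τ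
  | succ A ih =>
    intro ψ h
    have hd := (h.mul_id ha).deriv'
    obtain ⟨C1, hC1, h1⟩ := ih _ hd
    obtain ⟨C2, hC2, h2⟩ := ih _ h
    refine ⟨C1 + C2, by linarith, fun τ => ?_⟩
    have hg := (h.mul_id ha).gf' ha τ
    -- `0 = ∫ (u ψ u^{iτ})' = ∫ (u ψ)' u^{iτ} + iτ ∫ ψ u^{iτ}`
    have e0 : ∫ u, deriv (gf (fun u => ψ u * (u : ℂ)) τ) u = 0 :=
      integral_eq_zero_of_hasDerivAt_of_integrable
        (fun u => (hg.smooth.differentiable (by simp) u).hasDerivAt) hg.deriv'.integrable hg.integrable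
    have e1 : ∀ u : ℝ, gf (fun u => ψ u * (u : ℂ) * ((u : ℂ)⁻¹)) τ u = gf ψ τ u := by
      intro u
      unfold gf
      by_cases hu : ψ u = 0
      · simp [hu]
      · have : (u : ℂ) ≠ 0 := by
          have := (h.supp u hu).1
          exact_mod_cast (by linarith : (u : ℝ) ≠ 0)
        field_simp
    have i1 : Integrable (gf (deriv (fun u => ψ u * (u : ℂ))) τ) := (hd.gf' ha τ).integrable
    have i2 : Integrable (gf ψ τ) := (h.gf' ha τ).integrable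
    rw [deriv_gf ha (h.mul_id ha) τ] at e0
    simp only [e1] at e0
    rw [integral_add i1 (i2.const_mul _), integral_const_mul] at e0
    have e2 : |τ| * ‖∫ u, gf ψ τ u‖ = ‖∫ u, gf (deriv (fun u => ψ u * (u : ℂ))) τ u‖ := by
      have e3 : ∫ u, gf (deriv (fun u => ψ u * (u : ℂ))) τ u = -((τ * I) * ∫ u, gf ψ τ u) := by
        linear_combination e0
      rw [e3, norm_neg, norm_mul, norm_mul, Complex.norm_I, mul_one, Complex.norm_real, Real.norm_eq_abs]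
    have g1 := h1 τ
    have g2 := h2 τ
    calc (1 + |τ|) ^ (A + 1) * ‖∫ u, gf ψ τ u‖ =
        (1 + |τ|) ^ A * ‖∫ u, gf ψ τ u‖ + (1 + |τ|) ^ A * (|τ| * ‖∫ u, gf ψ τ u‖) := by ring
      _ ≤ _ := by
        rw [e2]
        linarith

end Pool.Agent.Helper62.M4
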