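import Pool.Agent.Helper62.M4.Four
import Pool.Agent.Helper94.BD.CpowGamma

/-!
# M4-Mel: separation of the variables

`sep`: `𝓕 (gf ψ τ) ξ = ∫ ρ(y) κ(τ + 2 π y) ξ^{-1/2 - i (τ + 2 π y)} dy` for `ξ > 0`, `‖κ‖ ≤ 1`, `ρ` integrable.
-/

set_option autoImplicit false

namespace Pool.Agent.Helper62.M4

open Complex MeasureTheory Filter Topology
open scoped FourierTransform ContDiff SchwartzMap

/-- the test function in the logarithmic variable -/
noncomputable def lg (ψ : ℝ → ℂ) (v : ℝ) : ℂ := ψ (Real.exp v) * ((Real.exp (v / 2) : ℝ) : ℂ)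

/-- the weight of the separation -/
noncomputable def rho (ψ : ℝ → ℂ) (y : ℝ) : ℂ := 𝓕 (lg ψ) y

lemma lg_smooth {a b : ℝ} {ψ : ℝ → ℂ} (h : Te a b ψ) : ContDiff ℝ ∞ (lg ψ) := by
  unfold lg
  have h1 : ContDiff ℝ ∞ (fun v : ℝ => ψ (Real.exp v)) := h.smooth.comp Real.contDiff_exp
  have h2 : ContDiff ℝ ∞ (fun v : ℝ => Real.exp (v / 2)) := Real.contDiff_exp.comp (contDiff_id.div_const 2)
  exact h1.mul (Complex.ofRealCLM.contDiff.comp h2)

lemma lg_hcs {a b : ℝ} (ha : 0 < a) {ψ : ℝ → ℂ} (h : Te a b ψ) : HasCompactSupport (lg ψ) := by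
  apply HasCompactSupport.intro (K := Set.Icc (Real.log a) (Real.log b)) isCompact_Icc
  intro v hv
  unfold lg
  by_contra h0
  have h1 := h.supp _ (left_ne_zero_of_mul h0)
  apply hv
  constructor
  · rw [Real.log_le_iff_le_exp ha]
    exact h1.1
  · rw [Real.le_log_iff_exp_le (by linarith [Real.exp_pos v])]
    exact h1.2

lemma lg_int {a b : ℝ} (ha : 0 < a) {ψ : ℝ → ℂ} (h : Te a b ψ) : Integrable (lg ψ) :=
  (lg_smooth h).continuous.integrable_of_hasCompactSupport (lg_hcs ha h)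

lemma rho_schwartz {a b : ℝ} (ha : 0 < a) {ψ : ℝ → ℂ} (h : Te a b ψ) : ∃ f : 𝓢(ℝ, ℂ), ∀ y, f y = rho ψ y := by
  refine ⟨𝓕 ((lg_hcs ha h).toSchwartzMap (lg_smooth h)), fun y => ?_⟩
  rw [SchwartzMap.fourier_coe]
  rfl

lemma rho_int {a b : ℝ} (ha : 0 < a) {ψ : ℝ → ℂ} (h : Te a b ψ) : Integrable (rho ψ) := by
  obtain ⟨f, hf⟩ := rho_schwartz ha h
  have : rho ψ = f := by ext y; rw [hf]
  rw [this]
  exact f.integrable

lemma rho_cont {a b : ℝ} (ha : 0 < a) {ψ : ℝ → ℂ} (h : Te a b ψ) : Continuous (rho ψ) := by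
  obtain ⟨f, hf⟩ := rho_schwartz ha h
  have : rho ψ = f := by ext y; rw [hf]
  rw [this]
  exact f.continuous

/-- Fourier inversion in the logarithmic variable -/
lemma inversion {a b : ℝ} (ha : 0 < a) {ψ : ℝ → ℂ} (h : Te a b ψ) (v : ℝ) :
    lg ψ v = ∫ y, cexp (((2 * Real.pi * (y * v) : ℝ) : ℂ) * I) * rho ψ y := by
  have h1 := Continuous.fourierInv_fourier_eq (lg_smooth h).continuous (lg_int ha h) (rho_int ha h)
  have h2 := congrFun h1 v
  rw [Real.fourierInv_eq'] at h2
  rw [← h2]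
  apply integral_congr_ae
  filter_upwards with y
  rw [smul_eq_mul]
  congr 3
  simp
  ring

/-- the Gamma function on the line `1/2` -/
lemma norm_Gamma_half (ν : ℝ) : ‖Gamma (1 / 2 + ν * I)‖ ^ 2 = Real.pi / Real.cosh (Real.pi * ν) := by
  have h1 := Complex.Gamma_mul_Gamma_one_sub (1 / 2 + ν * I)
  have h2 : (1 : ℂ) - (1 / 2 + ν * I) = (starRingEnd ℂ) (1 / 2 + ν * I) := by
    simp only [map_add, map_mul, map_div₀, map_one, map_ofNat, Complex.conj_ofReal, Complex.conj_I]
    ring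
  rw [h2, Complex.Gamma_conj, Complex.mul_conj] at h1
  have h3 : Complex.sin (Real.pi * (1 / 2 + ν * I)) = ((Real.cosh (Real.pi * ν) : ℝ) : ℂ) := by
    have : (Real.pi : ℂ) * (1 / 2 + ν * I) = (Real.pi * ν : ℂ) * I + Real.pi / 2 := by ring
    rw [this, Complex.sin_add_pi_div_two, Complex.cos_mul_I]
    push_cast
    rfl
  rw [h3] at h1
  have h4 : ((Complex.normSq (Gamma (1 / 2 + ν * I)) : ℝ) : ℂ) = ((Real.pi / Real.cosh (Real.pi * ν) : ℝ) : ℂ) := by
    rw [h1]
    push_cast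
    rfl
  rw [← Complex.normSq_eq_norm_sq]
  exact_mod_cast h4

lemma cosh_ge (x : ℝ) : Real.exp |x| / 2 ≤ Real.cosh x := by
  rw [← Real.cosh_abs, Real.cosh_eq]
  have := Real.exp_pos (-|x|)
  linarith

/-- the size of the kernel of the separation -/
lemma kernel_bd {r : ℂ} (hr : 0 ≤ r.re) {ξ : ℝ} (hξ : 0 < ξ) (hrξ : 2 * Real.pi * ξ ≤ ‖r‖) (ν : ℝ) :
    ‖(1 / r) ^ ((1 / 2 : ℂ) + ν * I) * Gamma (1 / 2 + ν * I)‖ ^ 2 ≤ 1 / ξ := by
  have hpi := Real.pi_pos
  have hr0 : 0 < ‖r‖ := lt_of_lt_of_le (by positivity) hrξ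
  have hr1 : r ≠ 0 := norm_pos_iff.1 hr0
  have h1 : (1 / r) ≠ 0 := one_div_ne_zero hr1
  rw [norm_mul, mul_pow, norm_Gamma_half, Complex.norm_cpow_of_ne_zero h1]
  have e1 : ((1 / 2 : ℂ) + ν * I).re = 1 / 2 := by simp
  have e2 : ((1 / 2 : ℂ) + ν * I).im = ν := by simp
  rw [e1, e2, div_pow]
  have e3 : (‖1 / r‖ ^ (1 / 2 : ℝ)) ^ 2 = 1 / ‖r‖ := by
    rw [← Real.sqrt_eq_rpow, Real.sq_sqrt (norm_nonneg _), norm_div, norm_one]
  rw [e3]
  have harg : |arg (1 / r)| ≤ Real.pi / 2 := by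
    rw [Complex.abs_arg_le_pi_div_two_iff, one_div, Complex.inv_re]
    exact div_nonneg hr (Complex.normSq_nonneg _)
  have e4 : Real.exp (-(Real.pi * |ν|)) ≤ Real.exp (arg (1 / r) * ν) ^ 2 := by
    rw [← Real.exp_nat_mul]
    apply Real.exp_le_exp.2
    push_cast
    have h5 : |arg (1 / r) * ν| ≤ Real.pi / 2 * |ν| := by
      rw [abs_mul]
      exact mul_le_mul_of_nonneg_right harg (abs_nonneg _)
    have h6 := neg_abs_le (arg (1 / r) * ν)
    linarith
  have e5 : Real.exp (Real.pi * |ν|) / 2 ≤ Real.cosh (Real.pi * ν) := by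
    have := cosh_ge (Real.pi * ν)
    rwa [abs_mul, abs_of_pos hpi] at this
  have p1 := Real.exp_pos (-(Real.pi * |ν|))
  have p2 := Real.exp_pos (Real.pi * |ν|)
  have p3 : Real.exp (-(Real.pi * |ν|)) * Real.exp (Real.pi * |ν|) = 1 := by
    rw [← Real.exp_add]
    simp
  have hc : 0 < Real.cosh (Real.pi * ν) := Real.cosh_pos _
  have hE : 0 < Real.exp (arg (1 / r) * ν) ^ 2 := by positivity
  have e6 : 1 / 2 ≤ Real.exp (arg (1 / r) * ν) ^ 2 * Real.cosh (Real.pi * ν) := by
    calc (1 / 2 : ℝ) = Real.exp (-(Real.pi * |ν|)) * (Real.exp (Real.pi * |ν|) / 2) := by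
          rw [← mul_div_assoc, p3]
      _ ≤ _ := mul_le_mul e4 e5 (by positivity) hE.le
  rw [div_div, div_mul_div_comm, div_le_div_iff₀ (by positivity) hξ]
  nlinarith

/-- the integrand of the separation -/
noncomputable def kz (τ y : ℝ) : ℂ := 1 / 2 + ((τ + 2 * Real.pi * y : ℝ) : ℂ) * I

lemma gf_eq {a b : ℝ} (ha : 0 < a) {ψ : ℝ → ℂ} (h : Te a b ψ) (τ : ℝ) {u : ℝ} (hu : 0 < u) :
    gf ψ τ u = ∫ y, rho ψ y * (u : ℂ) ^ (kz τ y - 1) := by
  have h1 := inversion ha h (Real.log u)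
  have h2 : lg ψ (Real.log u) = ψ u * ((Real.exp (Real.log u / 2) : ℝ) : ℂ) := by
    unfold lg
    rw [Real.exp_log hu]
  rw [h2] at h1
  have h3 : gf ψ τ u = (ψ u * ((Real.exp (Real.log u / 2) : ℝ) : ℂ)) *
      (((Real.exp (-(Real.log u / 2)) : ℝ) : ℂ) * cexp (((τ * Real.log u : ℝ) : ℂ) * I)) := by
    unfold gf
    have : (Real.exp (Real.log u / 2) : ℝ) * Real.exp (-(Real.log u / 2)) = 1 := by
      rw [← Real.exp_add]
      simp
    have hc : ((Real.exp (Real.log u / 2) : ℝ) : ℂ) * ((Real.exp (-(Real.log u / 2)) : ℝ) : ℂ) = 1 := by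
      exact_mod_cast this
    linear_combination (-(ψ u * cexp (((τ * Real.log u : ℝ) : ℂ) * I))) * hc
  rw [h3, h1, ← integral_mul_const]
  apply integral_congr_ae
  filter_upwards with y
  have hu' : (u : ℂ) ≠ 0 := by exact_mod_cast hu.ne'
  rw [Complex.cpow_def_of_ne_zero hu', ← Complex.ofReal_log hu.le, mul_comm (rho ψ y)]
  have : cexp (((2 * Real.pi * (y * Real.log u) : ℝ) : ℂ) * I) * (((Real.exp (-(Real.log u / 2)) : ℝ) : ℂ) *
      cexp (((τ * Real.log u : ℝ) : ℂ) * I)) = cexp ((Real.log u : ℂ) * (kz τ y - 1)) := by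
    rw [Complex.ofReal_exp, ← Complex.exp_add, ← Complex.exp_add]
    congr 1
    unfold kz
    push_cast
    ring
  rw [← this]
  ring

/-- the regularized identity -/
lemma sep_reg {a b : ℝ} (ha : 0 < a) {ψ : ℝ → ℂ} (h : Te a b ψ) (τ : ℝ) {r : ℂ} (hr : 0 < r.re) :
    ∫ u in Set.Ioi (0 : ℝ), gf ψ τ u * cexp (-(r * u)) =
      ∫ y, rho ψ y * ((1 / r) ^ (kz τ y) * Gamma (kz τ y)) := by
  have hre : ∀ y, (kz τ y).re = 1 / 2 := by
    intro y
    simp [kz]
  have e1 : ∫ u in Set.Ioi (0 : ℝ), gf ψ τ u * cexp (-(r * u)) =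
      ∫ u in Set.Ioi (0 : ℝ), ∫ y, rho ψ y * (cexp ((kz τ y - 1) * (Real.log u : ℂ)) * cexp (-(r * u))) := by
    apply setIntegral_congr_fun measurableSet_Ioi
    intro u hu
    have hu0 : (0 : ℝ) < u := hu
    have hu' : (u : ℂ) ≠ 0 := by exact_mod_cast hu0.ne'
    simp only
    rw [gf_eq ha h τ hu0, ← integral_mul_const]
    apply integral_congr_ae
    filter_upwards with y
    rw [Complex.cpow_def_of_ne_zero hu', ← Complex.ofReal_log hu0.le]
    rw [mul_comm (Real.log u : ℂ)]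
    ring
  rw [e1, integral_integral_swap]
  · apply integral_congr_ae
    filter_upwards with y
    rw [integral_const_mul]
    congr 1
    rw [← Pool.Agent.Helper94.BD.laplace_cpow (a := kz τ y) (by rw [hre]; norm_num) hr]
    apply setIntegral_congr_fun measurableSet_Ioi
    intro u hu
    have hu0 : (0 : ℝ) < u := hu
    have hu' : (u : ℂ) ≠ 0 := by exact_mod_cast hu0.ne'
    simp only
    rw [Complex.cpow_def_of_ne_zero hu', ← Complex.ofReal_log hu0.le, mul_comm (Real.log u : ℂ)]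
  · have i1 : Integrable (fun u : ℝ => u ^ (-(1 / 2) : ℝ) * Real.exp (-(r.re * u))) (volume.restrict (Set.Ioi 0)) :=
      Pool.Agent.Helper94.BD.int_rpow (by norm_num) hr
    have i2 := i1.mul_prod (rho_int ha h).norm
    refine i2.mono' ?_ ?_
    · have hm : Measurable (rho ψ) := (rho_cont ha h).measurable
      have hk : Measurable (kz τ) := by
        unfold kz
        fun_prop
      apply Measurable.aestronglyMeasurable
      unfold Function.uncurry
      have m1 : Measurable (fun p : ℝ × ℝ => rho ψ p.2) := hm.comp measurable_snd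
      have m2 : Measurable (fun p : ℝ × ℝ => kz τ p.2) := hk.comp measurable_snd
      have m3 : Measurable (fun p : ℝ × ℝ => ((Real.log p.1 : ℝ) : ℂ)) :=
        Complex.measurable_ofReal.comp (Real.measurable_log.comp measurable_fst)
      have m4 : Measurable (fun p : ℝ × ℝ => ((p.1 : ℝ) : ℂ)) := Complex.measurable_ofReal.comp measurable_fst
      exact m1.mul ((((m2.sub_const 1).mul m3).cexp).mul ((m4.const_mul r).neg.cexp))
    · have : ∀ᵐ u : ℝ ∂(volume.restrict (Set.Ioi (0 : ℝ))), (0 : ℝ) < u := ae_restrict_mem measurableSet_Ioi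
      have h2 : ∀ᵐ p : ℝ × ℝ ∂((volume.restrict (Set.Ioi (0 : ℝ))).prod volume), (0 : ℝ) < p.1 :=
        Measure.quasiMeasurePreserving_fst.ae this
      filter_upwards [h2] with p hp
      unfold Function.uncurry
      simp only
      rw [norm_mul, norm_mul, Complex.norm_exp, Complex.norm_exp, mul_comm]
      apply le_of_eq
      congr 1
      congr 1
      · rw [Real.rpow_def_of_pos hp]
        congr 1
        have : (kz τ p.2 - 1) = ((-(1 / 2) : ℝ) : ℂ) + ((τ + 2 * Real.pi * p.2 : ℝ) : ℂ) * I := by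
          unfold kz
          push_cast
          ring
        rw [this]
        simp
        ring
      · congr 1
        simp

/-- the constant kernel of the separation -/
noncomputable def kap (ν : ℝ) : ℂ := (1 / (2 * Real.pi * I)) ^ ((1 / 2 : ℂ) + ν * I) * Gamma (1 / 2 + ν * I)

lemma norm_kap (ν : ℝ) : ‖kap ν‖ ≤ 1 := by
  have h1 := kernel_bd (r := 2 * Real.pi * I) (by simp) (ξ := 1) one_pos (by simp [abs_of_pos Real.pi_pos]) ν
  unfold kap
  rw [div_one] at h1
  exact (sq_le_one_iff₀ (norm_nonneg _)).1 h1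

/-- The separation of the variables. -/
theorem sep {a b : ℝ} (ha : 0 < a) {ψ : ℝ → ℂ} (h : Te a b ψ) (τ : ℝ) {ξ : ℝ} (hξ : 0 < ξ) :
    𝓕 (gf ψ τ) ξ = ∫ y, rho ψ y * (kap (τ + 2 * Real.pi * y) * cexp (-(kz τ y) * (Real.log ξ : ℂ))) := by
  have hpi := Real.pi_pos
  -- the two limits
  have L1 : Tendsto (fun δ : ℝ => ∫ u in Set.Ioi (0 : ℝ), gf ψ τ u * cexp (-(((δ : ℂ) + 2 * Real.pi * ξ * I) * u)))
      (𝓝[>] 0) (𝓝 (∫ u in Set.Ioi (0 : ℝ), gf ψ τ u * cexp (-((2 * Real.pi * ξ * I) * u)))) := by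
    apply tendsto_integral_filter_of_dominated_convergence (fun u => ‖ψ u‖)
    · filter_upwards with δ
      apply AEStronglyMeasurable.mul
      · exact (h.gf' ha τ).smooth.continuous.aestronglyMeasurable
      · apply Continuous.aestronglyMeasurable
        fun_prop
    · filter_upwards [self_mem_nhdsWithin] with δ hδ
      filter_upwards [ae_restrict_mem measurableSet_Ioi] with u hu
      have hδ0 : (0 : ℝ) < δ := hδ
      have hu0 : (0 : ℝ) < u := hu
      rw [norm_mul, norm_gf, Complex.norm_exp]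
      have : Real.exp (-(((δ : ℂ) + 2 * Real.pi * ξ * I) * u)).re ≤ 1 := by
        rw [Real.exp_le_one_iff]
        simp
        positivity
      exact mul_le_of_le_one_right (norm_nonneg _) this
    · exact h.integrable.norm.restrict
    · filter_upwards with u
      have : Continuous (fun δ : ℝ => gf ψ τ u * cexp (-(((δ : ℂ) + 2 * Real.pi * ξ * I) * u))) := by fun_prop
      have h2 := this.tendsto 0
      simp only [Complex.ofReal_zero, zero_add] at h2
      exact h2.mono_left nhdsWithin_le_nhds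
  have L2 : Tendsto (fun δ : ℝ => ∫ y, rho ψ y * ((1 / ((δ : ℂ) + 2 * Real.pi * ξ * I)) ^ (kz τ y) * Gamma (kz τ y)))
      (𝓝[>] 0) (𝓝 (∫ y, rho ψ y * ((1 / (2 * Real.pi * ξ * I)) ^ (kz τ y) * Gamma (kz τ y)))) := by
    have hkc : Continuous (kz τ) := by
      unfold kz
      fun_prop
    have hGc : Continuous (fun y => Gamma (kz τ y)) := by
      rw [continuous_iff_continuousAt]
      intro y
      have h1 : DifferentiableAt ℂ Gamma (kz τ y) := by
        apply Complex.differentiableAt_Gamma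
        intro m hm
        have : (kz τ y).re = (-(m : ℂ)).re := by rw [hm]
        simp [kz] at this
        have hm0 : (0 : ℝ) ≤ m := Nat.cast_nonneg m
        linarith
      exact h1.continuousAt.comp (f := kz τ) hkc.continuousAt
    apply tendsto_integral_filter_of_dominated_convergence (fun y => ‖rho ψ y‖ * Real.sqrt (1 / ξ))
    · filter_upwards [self_mem_nhdsWithin] with δ hδ
      have hδ0 : (0 : ℝ) < δ := hδ
      have hr0 : (1 / ((δ : ℂ) + 2 * Real.pi * ξ * I)) ≠ 0 := by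
        apply one_div_ne_zero
        intro h0
        have := congrArg Complex.re h0
        simp at this
        linarith
      apply Continuous.aestronglyMeasurable
      apply (rho_cont ha h).mul
      exact (Continuous.const_cpow hkc (Or.inl hr0)).mul hGc
    · filter_upwards [self_mem_nhdsWithin] with δ hδ
      have hδ0 : (0 : ℝ) < δ := hδ
      filter_upwards with y
      rw [norm_mul]
      apply mul_le_mul_of_nonneg_left _ (norm_nonneg _)
      apply Real.le_sqrt_of_sq_le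
      have h1 := kernel_bd (r := (δ : ℂ) + 2 * Real.pi * ξ * I) (by simp; exact hδ0.le) hξ (by
        have h2 := Complex.abs_im_le_norm ((δ : ℂ) + 2 * Real.pi * ξ * I)
        have h3 : ((δ : ℂ) + 2 * Real.pi * ξ * I).im = 2 * Real.pi * ξ := by simp
        rw [h3, abs_of_pos (by positivity)] at h2
        exact h2) (τ + 2 * Real.pi * y)
      unfold kz
      exact h1
    · exact (rho_int ha h).norm.mul_const _
    · filter_upwards with y
      have hs : (1 / (2 * Real.pi * ξ * I) : ℂ) ∈ slitPlane := by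
        rw [Complex.mem_slitPlane_iff]
        right
        have : (1 / (2 * Real.pi * ξ * I) : ℂ) = (-(1 / (2 * Real.pi * ξ)) : ℝ) * I := by
          push_cast
          have h1 : (Real.pi : ℂ) ≠ 0 := by exact_mod_cast hpi.ne'
          have h2 : (ξ : ℂ) ≠ 0 := by exact_mod_cast hξ.ne'
          field_simp
          simp
        rw [this]
        simp only [Complex.im_ofReal_mul, Complex.I_im, mul_one, ne_eq, neg_eq_zero]
        positivity
      have hne : (2 * Real.pi * ξ * I : ℂ) ≠ 0 := by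
        have h1 : (Real.pi : ℂ) ≠ 0 := by exact_mod_cast hpi.ne'
        have h2 : (ξ : ℂ) ≠ 0 := by exact_mod_cast hξ.ne'
        simp [h1, h2]
      have c1 : ContinuousAt (fun δ : ℝ => (1 / ((δ : ℂ) + 2 * Real.pi * ξ * I) : ℂ)) 0 := by
        apply ContinuousAt.div continuousAt_const (by fun_prop)
        simp only [Complex.ofReal_zero, zero_add]
        exact hne
      have c2 : ContinuousAt (fun δ : ℝ => (1 / ((δ : ℂ) + 2 * Real.pi * ξ * I) : ℂ) ^ (kz τ y)) 0 := by
        apply c1.cpow continuousAt_const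
        simp only [Complex.ofReal_zero, zero_add]
        exact hs
      have c3 := (continuousAt_const (y := rho ψ y)).mul (c2.mul (continuousAt_const (y := Gamma (kz τ y))))
      have c4 : Tendsto (fun δ : ℝ => rho ψ y * ((1 / ((δ : ℂ) + 2 * Real.pi * ξ * I)) ^ (kz τ y) * Gamma (kz τ y)))
          (𝓝 0) (𝓝 (rho ψ y * ((1 / (((0 : ℝ) : ℂ) + 2 * Real.pi * ξ * I)) ^ (kz τ y) * Gamma (kz τ y)))) :=
        c3.tendsto
      rw [Complex.ofReal_zero, zero_add] at c4
      exact c4.mono_left nhdsWithin_le_nhds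
  have heq : ∀ᶠ δ : ℝ in 𝓝[>] 0, ∫ u in Set.Ioi (0 : ℝ), gf ψ τ u * cexp (-(((δ : ℂ) + 2 * Real.pi * ξ * I) * u)) =
      ∫ y, rho ψ y * ((1 / ((δ : ℂ) + 2 * Real.pi * ξ * I)) ^ (kz τ y) * Gamma (kz τ y)) := by
    filter_upwards [self_mem_nhdsWithin] with δ hδ
    have hδ0 : (0 : ℝ) < δ := hδ
    apply sep_reg ha h τ
    simp
    exact hδ0
  have hlim := tendsto_nhds_unique (L1.congr' heq) L2
  have e1 : 𝓕 (gf ψ τ) ξ = ∫ u in Set.Ioi (0 : ℝ), gf ψ τ u * cexp (-((2 * Real.pi * ξ * I) * u)) := by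
    rw [Real.fourier_eq', ← integral_indicator measurableSet_Ioi]
    apply integral_congr_ae
    filter_upwards with u
    by_cases hu : u ∈ Set.Ioi (0 : ℝ)
    · rw [Set.indicator_of_mem hu, smul_eq_mul, mul_comm]
      congr 2
      simp
      ring
    · rw [Set.indicator_of_notMem hu]
      have : gf ψ τ u = 0 := by
        unfold gf
        rw [h.eq_zero (Or.inl (lt_of_le_of_lt (not_lt.1 hu) ha)), zero_mul]
      rw [this, smul_zero]
  rw [e1, hlim]
  apply integral_congr_ae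
  filter_upwards with y
  congr 1
  have hI : (2 * Real.pi * I : ℂ) ≠ 0 := by
    have h1 : (Real.pi : ℂ) ≠ 0 := by exact_mod_cast hpi.ne'
    simp [h1]
  have h3 : (1 / (2 * Real.pi * ξ * I) : ℂ) = ((1 / ξ : ℝ) : ℂ) * (1 / (2 * Real.pi * I)) := by
    push_cast
    have h2 : (ξ : ℂ) ≠ 0 := by exact_mod_cast hξ.ne'
    field_simp
  have h4 : (1 / (2 * Real.pi * ξ * I) : ℂ) ^ (kz τ y) =
      (1 / (2 * Real.pi * I)) ^ (kz τ y) * cexp (-(kz τ y) * (Real.log ξ : ℂ)) := by
    rw [h3, Complex.cpow_def_of_ne_zero (mul_ne_zero (by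
        have : (0 : ℝ) < 1 / ξ := by positivity
        exact_mod_cast this.ne') (one_div_ne_zero hI)),
      Complex.cpow_def_of_ne_zero (one_div_ne_zero hI), Complex.log_ofReal_mul (by positivity) (one_div_ne_zero hI),
      ← Complex.exp_add, one_div ξ, Real.log_inv]
    congr 1
    push_cast
    ring
  rw [h4]
  unfold kap kz
  ring

end Pool.Agent.Helper62.M4
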