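import Pool.Agent.Helper62.M4.Refl
import Pool.Agent.Helper25.HM.M5E

/-!
# M4-Mom: fourth moments over `(χ, k)` by the mean value theorem, and Hölder's inequality
-/

set_option autoImplicit false

namespace Pool.Agent.Helper62.M4

open Finset MeasureTheory
open Pool.Agent.Helper25.HM (nt norm_nt P cv cv_mul JJ mean_full log2_le)

lemma cv_le62 {A B : ℕ} {f g : ℕ → ℂ} {β : ℝ} (hβ : 0 ≤ β) (n : ℕ)
    (h : ∀ i ∈ Icc 1 A, ∀ j ∈ Icc 1 B, i * j = n → ‖f i * g j‖ ≤ β) :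
    ‖cv A B f g n‖ ≤ (n.divisors.card : ℝ) * β := by
  unfold cv
  refine (norm_sum_le _ _).trans ?_
  have h1 : ∀ p ∈ (Icc 1 A ×ˢ Icc 1 B).filter (fun p => p.1 * p.2 = n), ‖f p.1 * g p.2‖ ≤ β := by
    intro p hp
    rw [mem_filter, mem_product] at hp
    exact h _ hp.1.1 _ hp.1.2 hp.2
  refine (Finset.sum_le_card_nsmul _ _ _ h1).trans ?_
  rw [nsmul_eq_mul]
  refine mul_le_mul_of_nonneg_right ?_ hβ
  have h2 : ((Icc 1 A ×ˢ Icc 1 B).filter (fun p => p.1 * p.2 = n)).card ≤ n.divisors.card := by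
    apply Finset.card_le_card_of_injOn (fun p => p.1)
    · intro p hp
      have hp' := Finset.mem_filter.1 (Finset.mem_coe.1 hp)
      rw [Finset.mem_product, Finset.mem_Icc, Finset.mem_Icc] at hp'
      rw [Finset.mem_coe, Nat.mem_divisors]
      refine ⟨⟨p.2, hp'.2.symm⟩, ?_⟩
      rw [← hp'.2]
      exact (Nat.mul_pos hp'.1.1.1 hp'.1.2.1).ne'
    · intro p hp r hr he
      have hp' := Finset.mem_filter.1 (Finset.mem_coe.1 hp)
      have hr' := Finset.mem_filter.1 (Finset.mem_coe.1 hr)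
      rw [Finset.mem_product, Finset.mem_Icc, Finset.mem_Icc] at hp' hr'
      have he' : p.1 = r.1 := he
      have e1 : p.1 * p.2 = p.1 * r.2 := by rw [hp'.2, he', hr'.2]
      have e2 : p.2 = r.2 := Nat.eq_of_mul_eq_mul_left hp'.1.1.1 e1
      exact Prod.ext he' e2
  exact_mod_cast h2

/-- divisors -/
lemma divs {e D : ℝ} (he : 0 < e) (hD : 0 < D) : ∃ C : ℝ, 0 < C ∧ ∀ (X : ℝ) (n : ℕ), 1 ≤ X → n ≠ 0 →
    (n : ℝ) ≤ D * X ^ 6 → (n.divisors.card : ℝ) ≤ C * X ^ e := by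
  obtain ⟨C, hC, h⟩ := Pool.Agent.Helper69.FF.div_bound (ε := e / 6) (by positivity)
  refine ⟨C * D ^ (e / 6), by positivity, fun X n hX hn hnX => ?_⟩
  refine (h n hn).trans ?_
  have hX0 : 0 < X := by linarith
  have h1 : (n : ℝ) ^ (e / 6) ≤ (D * X ^ 6) ^ (e / 6) :=
    Real.rpow_le_rpow (Nat.cast_nonneg _) hnX (by positivity)
  have h2 : (D * X ^ 6) ^ (e / 6) = D ^ (e / 6) * X ^ e := by
    rw [Real.mul_rpow hD.le (by positivity), ← Real.rpow_natCast X 6, ← Real.rpow_mul hX0.le]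
    congr 2
    push_cast
    ring
  calc C * (n : ℝ) ^ (e / 6) ≤ C * (D ^ (e / 6) * X ^ e) := by
        rw [← h2]
        exact mul_le_mul_of_nonneg_left h1 hC.le
    _ = _ := by ring

/-- logarithms -/
lemma logs {e D : ℝ} (he : 0 < e) (hD : 0 < D) : ∃ C : ℝ, 0 < C ∧ ∀ (X y : ℝ), 1 ≤ X → 1 ≤ y →
    y ≤ D * X ^ 6 → 1 + Real.log y ≤ C * X ^ e := by
  refine ⟨1 + |Real.log D| + 6 / e, by positivity, fun X y hX hy hyX => ?_⟩
  have hX0 : 0 < X := by linarith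
  have h1 : Real.log y ≤ Real.log D + 6 * Real.log X := by
    have := Real.log_le_log (by linarith) hyX
    rw [Real.log_mul hD.ne' (by positivity), Real.log_pow] at this
    push_cast at this
    exact this
  have h2 : Real.log X ≤ X ^ e / e := Real.log_le_rpow_div hX0.le he
  have h3 : 1 ≤ X ^ e := Real.one_le_rpow hX he.le
  have h4 := le_abs_self (Real.log D)
  have h5 := abs_nonneg (Real.log D)
  calc 1 + Real.log y ≤ 1 + |Real.log D| + 6 * (X ^ e / e) := by linarith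
    _ = (1 + |Real.log D|) * 1 + 6 / e * X ^ e := by ring
    _ ≤ (1 + |Real.log D|) * X ^ e + 6 / e * X ^ e := by gcongr
    _ = _ := by ring

/-- the fourth moment by the mean value theorem -/
lemma mom {e D : ℝ} (he : 0 < e) (hD : 1 ≤ D) : ∃ C : ℝ, 0 < C ∧ ∀ (X : ℝ) (q : ℕ) [NeZero q] (T M : ℕ), 1 ≤ X →
    1 ≤ T → 1 ≤ M → (M : ℝ) ≤ D * X ^ 3 → ∀ c : ℕ → ℂ,
    ∑ p ∈ (univ : Finset (DirichletCharacter ℂ q)) ×ˢ Icc (-(T : ℤ)) T, ‖P M c p‖ ^ 4 ≤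
      C * X ^ e * ((q * T + (M : ℝ) ^ 2) * ∑ n ∈ Icc 1 (M * M), ‖cv M M c c n‖ ^ 2) := by
  obtain ⟨C1, hC1, h1⟩ := logs (e := e / 2) (D := 5 * D ^ 2) (by positivity) (by positivity)
  refine ⟨2 * C1 * (3 + 16 * C1), by positivity, fun X q _ T M hX hT hM hMX c => ?_⟩
  have hX0 : 0 < X := by linarith
  have hq0 : (0 : ℝ) < q := by exact_mod_cast Nat.pos_of_ne_zero (NeZero.ne q)
  have hT1 : (1 : ℝ) ≤ T := by exact_mod_cast hT
  have hM1 : (1 : ℝ) ≤ M := by exact_mod_cast hM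
  have hMM : 1 ≤ M * M := Nat.mul_pos hM hM
  have e0 : ∑ p ∈ (univ : Finset (DirichletCharacter ℂ q)) ×ˢ Icc (-(T : ℤ)) T, ‖P M c p‖ ^ 4 =
      ∑ χ : DirichletCharacter ℂ q, ∑ k ∈ Icc (-(T : ℤ)) T, ‖P (M * M) (cv M M c c) (χ, k)‖ ^ 2 := by
    rw [sum_product]
    refine sum_congr rfl fun χ _ => sum_congr rfl fun k _ => ?_
    rw [← cv_mul, norm_mul]
    ring
  rw [e0]
  refine (mean_full T hMM (cv M M c c)).trans ?_
  obtain ⟨Y, hY⟩ : ∃ Y : ℝ, Y = X ^ (e / 2) := ⟨_, rfl⟩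
  have hYY : X ^ e = Y * Y := by
    rw [hY, ← Real.rpow_add hX0]
    congr 1
    ring
  have hY1 : 1 ≤ Y := by rw [hY]; exact Real.one_le_rpow hX (by positivity)
  have hMMr : ((M * M : ℕ) : ℝ) = (M : ℝ) ^ 2 := by push_cast; ring
  have hM6 : 4 * (M : ℝ) ^ 2 + 1 ≤ 5 * D ^ 2 * X ^ 6 := by
    have h2 : (M : ℝ) ^ 2 ≤ (D * X ^ 3) ^ 2 := pow_le_pow_left₀ (by positivity) hMX 2
    have h3 : (D * X ^ 3) ^ 2 = D ^ 2 * X ^ 6 := by ring
    have h4 : 1 ≤ (M : ℝ) ^ 2 := one_le_pow₀ hM1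
    nlinarith
  have hl : 1 + Real.log (4 * ((M * M : ℕ) : ℝ) + 1) ≤ C1 * Y := by
    rw [hMMr, hY]
    exact h1 X _ hX (by nlinarith) hM6
  have hJ : (JJ (M * M) : ℝ) ≤ 2 * (C1 * Y) := by
    unfold JJ
    push_cast
    have h2 := log2_le (M * M) hMM
    have h3 : 1 + Real.log ((M * M : ℕ) : ℝ) ≤ C1 * Y := by
      rw [hMMr, hY]
      exact h1 X _ hX (one_le_pow₀ hM1) (by nlinarith)
    linarith
  have hl0 : 0 ≤ Real.log (4 * ((M * M : ℕ) : ℝ) + 1) := by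
    apply Real.log_nonneg
    rw [hMMr]
    nlinarith
  have hS0 : 0 ≤ ∑ n ∈ Icc 1 (M * M), ‖cv M M c c n‖ ^ 2 := sum_nonneg fun _ _ => sq_nonneg _
  have h3 : (q : ℝ) * (2 * T + 1) + 16 * ((M * M : ℕ) : ℝ) * (1 + Real.log (4 * ((M * M : ℕ) : ℝ) + 1)) ≤
      (3 + 16 * C1) * Y * (q * T + (M : ℝ) ^ 2) := by
    have e1 : (q : ℝ) * (2 * T + 1) ≤ 3 * (q * T) := by nlinarith
    have e2 : 16 * ((M * M : ℕ) : ℝ) * (1 + Real.log (4 * ((M * M : ℕ) : ℝ) + 1)) ≤ 16 * (M : ℝ) ^ 2 * (C1 * Y) := by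
      rw [hMMr] at hl ⊢
      exact mul_le_mul_of_nonneg_left hl (by positivity)
    have e3 : 0 < (q : ℝ) * T := by positivity
    have e4 : 0 ≤ (M : ℝ) ^ 2 := by positivity
    have e5 : 3 * ((q : ℝ) * T) ≤ 3 * Y * (q * T) := by nlinarith
    have e6 : 0 ≤ 16 * C1 * Y * (q * T) := by positivity
    have e7 : 0 ≤ 3 * Y * (M : ℝ) ^ 2 := by positivity
    linarith
  have h4 : 0 ≤ (q : ℝ) * (2 * T + 1) + 16 * ((M * M : ℕ) : ℝ) * (1 + Real.log (4 * ((M * M : ℕ) : ℝ) + 1)) := by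
    positivity
  calc (JJ (M * M) : ℝ) * ((q * (2 * T + 1) + 16 * ((M * M : ℕ) : ℝ) *
        (1 + Real.log (4 * ((M * M : ℕ) : ℝ) + 1))) * ∑ n ∈ Icc 1 (M * M), ‖cv M M c c n‖ ^ 2)
      ≤ (2 * (C1 * Y)) * (((3 + 16 * C1) * Y * (q * T + (M : ℝ) ^ 2)) *
        ∑ n ∈ Icc 1 (M * M), ‖cv M M c c n‖ ^ 2) := by gcongr
    _ = 2 * C1 * (3 + 16 * C1) * (Y * Y) * ((q * T + (M : ℝ) ^ 2) * ∑ n ∈ Icc 1 (M * M), ‖cv M M c c n‖ ^ 2) := by
        ring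
    _ = _ := by rw [hYY]

/-- bounded coefficients -/
lemma mom1 {e D B : ℝ} (he : 0 < e) (hD : 1 ≤ D) (hB : 0 ≤ B) : ∃ C : ℝ, 0 < C ∧ ∀ (X : ℝ) (q : ℕ) [NeZero q]
    (T M : ℕ), 1 ≤ X → 1 ≤ T → 1 ≤ M → (M : ℝ) ≤ D * X ^ 3 → ∀ c : ℕ → ℂ, (∀ n ∈ Icc 1 M, ‖c n‖ ≤ B) →
    ∑ p ∈ (univ : Finset (DirichletCharacter ℂ q)) ×ˢ Icc (-(T : ℤ)) T, ‖P M c p‖ ^ 4 ≤
      C * X ^ e * ((q * T + (M : ℝ) ^ 2) * (M : ℝ) ^ 2) := by
  obtain ⟨C1, hC1, h1⟩ := mom (e := e / 3) (D := D) (by positivity) hD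
  obtain ⟨C2, hC2, h2⟩ := divs (e := e / 3) (D := D ^ 2) (by positivity) (by positivity)
  refine ⟨C1 * (C2 ^ 2 * B ^ 4 + 1), by positivity, fun X q _ T M hX hT hM hMX c hc => ?_⟩
  have hX0 : 0 < X := by linarith
  have hq0 : (0 : ℝ) < q := by exact_mod_cast Nat.pos_of_ne_zero (NeZero.ne q)
  refine (h1 X q T M hX hT hM hMX c).trans ?_
  obtain ⟨Y, hY⟩ : ∃ Y : ℝ, Y = X ^ (e / 3) := ⟨_, rfl⟩
  have hYY : X ^ e = Y * Y ^ 2 := by
    rw [hY, ← Real.rpow_natCast, ← Real.rpow_mul hX0.le, ← Real.rpow_add hX0]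
    congr 1
    push_cast
    ring
  have hY0 : 0 < Y := by rw [hY]; positivity
  have h3 : ∀ n ∈ Icc 1 (M * M), ‖cv M M c c n‖ ^ 2 ≤ (C2 * Y * B ^ 2) ^ 2 := by
    intro n hn
    rw [mem_Icc] at hn
    apply pow_le_pow_left₀ (norm_nonneg _)
    refine (cv_le62 (β := B ^ 2) (by positivity) n (fun i hi j hj _ => ?_)).trans ?_
    · rw [norm_mul, sq]
      exact mul_le_mul (hc i hi) (hc j hj) (norm_nonneg _) hB
    · apply mul_le_mul_of_nonneg_right _ (by positivity)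
      rw [hY]
      apply h2 X n hX (by omega)
      have h4 : (n : ℝ) ≤ (M : ℝ) ^ 2 := by
        have : (n : ℝ) ≤ ((M * M : ℕ) : ℝ) := by exact_mod_cast hn.2
        refine this.trans (le_of_eq ?_)
        push_cast
        ring
      have h5 : (M : ℝ) ^ 2 ≤ (D * X ^ 3) ^ 2 := pow_le_pow_left₀ (by positivity) hMX 2
      have h6 : (D * X ^ 3) ^ 2 = D ^ 2 * X ^ 6 := by ring
      linarith
  have h4 : ∑ n ∈ Icc 1 (M * M), ‖cv M M c c n‖ ^ 2 ≤ (M : ℝ) ^ 2 * (C2 * Y * B ^ 2) ^ 2 := by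
    refine (sum_le_sum h3).trans (le_of_eq ?_)
    rw [sum_const, Nat.card_Icc, nsmul_eq_mul]
    simp only [Nat.add_sub_cancel]
    push_cast
    ring
  rw [← hY, hYY]
  calc C1 * Y * ((q * T + (M : ℝ) ^ 2) * ∑ n ∈ Icc 1 (M * M), ‖cv M M c c n‖ ^ 2)
      ≤ C1 * Y * ((q * T + (M : ℝ) ^ 2) * ((M : ℝ) ^ 2 * (C2 * Y * B ^ 2) ^ 2)) := by gcongr
    _ = C1 * (C2 ^ 2 * B ^ 4) * (Y * Y ^ 2) * ((q * T + (M : ℝ) ^ 2) * (M : ℝ) ^ 2) := by ring
    _ ≤ C1 * (C2 ^ 2 * B ^ 4 + 1) * (Y * Y ^ 2) * ((q * T + (M : ℝ) ^ 2) * (M : ℝ) ^ 2) := by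
        gcongr
        linarith

lemma harm62 (M : ℕ) : ∑ n ∈ Icc 1 M, (1 : ℝ) / n ≤ 1 + Real.log M := by
  have h1 := harmonic_le_one_add_log M
  have h2 : ((harmonic M : ℚ) : ℝ) = ∑ n ∈ Icc 1 M, (1 : ℝ) / n := by
    rw [harmonic_eq_sum_Icc]
    push_cast
    refine sum_congr rfl fun n _ => ?_
    rw [one_div]
  rw [← h2]
  exact h1

/-- coefficients of size `n^{-1/2}` -/
lemma mom2 {e D : ℝ} (he : 0 < e) (hD : 1 ≤ D) : ∃ C : ℝ, 0 < C ∧ ∀ (X : ℝ) (q : ℕ) [NeZero q]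
    (T M : ℕ), 1 ≤ X → 1 ≤ T → 1 ≤ M → (M : ℝ) ≤ D * X ^ 3 → ∀ c : ℕ → ℂ,
    (∀ n ∈ Icc 1 M, ‖c n‖ ^ 2 ≤ 1 / n) →
    ∑ p ∈ (univ : Finset (DirichletCharacter ℂ q)) ×ˢ Icc (-(T : ℤ)) T, ‖P M c p‖ ^ 4 ≤
      C * X ^ e * (q * T + (M : ℝ) ^ 2) := by
  obtain ⟨C1, hC1, h1⟩ := mom (e := e / 4) (D := D) (by positivity) hD
  obtain ⟨C2, hC2, h2⟩ := divs (e := e / 4) (D := D ^ 2) (by positivity) (by positivity)
  obtain ⟨C3, hC3, h3⟩ := logs (e := e / 4) (D := D ^ 2) (by positivity) (by positivity)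
  refine ⟨C1 * (C2 ^ 2 * C3), by positivity, fun X q _ T M hX hT hM hMX c hc => ?_⟩
  have hX0 : 0 < X := by linarith
  have hM1 : (1 : ℝ) ≤ M := by exact_mod_cast hM
  have hq0 : (0 : ℝ) < q := by exact_mod_cast Nat.pos_of_ne_zero (NeZero.ne q)
  refine (h1 X q T M hX hT hM hMX c).trans ?_
  obtain ⟨Y, hY⟩ : ∃ Y : ℝ, Y = X ^ (e / 4) := ⟨_, rfl⟩
  have hYY : X ^ e = Y * (Y ^ 2 * Y) := by
    have : X ^ e = Y ^ 4 := by
      rw [hY, ← Real.rpow_natCast, ← Real.rpow_mul hX0.le]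
      congr 1
      push_cast
      ring
    rw [this]
    ring
  have hY0 : 0 < Y := by rw [hY]; positivity
  have hM6 : (M : ℝ) ^ 2 ≤ D ^ 2 * X ^ 6 := by
    have h5 : (M : ℝ) ^ 2 ≤ (D * X ^ 3) ^ 2 := pow_le_pow_left₀ (by positivity) hMX 2
    have h6 : (D * X ^ 3) ^ 2 = D ^ 2 * X ^ 6 := by ring
    linarith
  have hMMr : ((M * M : ℕ) : ℝ) = (M : ℝ) ^ 2 := by push_cast; ring
  have h4 : ∀ n ∈ Icc 1 (M * M), ‖cv M M c c n‖ ^ 2 ≤ (C2 * Y) ^ 2 * (1 / n) := by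
    intro n hn
    rw [mem_Icc] at hn
    have hn0 : (0 : ℝ) < n := by exact_mod_cast (by omega : 0 < n)
    have hs0 : 0 ≤ Real.sqrt (1 / n) := Real.sqrt_nonneg _
    have e1 : ‖cv M M c c n‖ ≤ (n.divisors.card : ℝ) * Real.sqrt (1 / n) := by
      apply cv_le62 hs0
      intro i hi j hj hij
      apply Real.le_sqrt_of_sq_le
      rw [norm_mul, mul_pow]
      have hi0 : (0 : ℝ) < i := by exact_mod_cast (mem_Icc.1 hi).1
      have hj0 : (0 : ℝ) < j := by exact_mod_cast (mem_Icc.1 hj).1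
      calc ‖c i‖ ^ 2 * ‖c j‖ ^ 2 ≤ (1 / i) * (1 / j) :=
            mul_le_mul (hc i hi) (hc j hj) (sq_nonneg _) (by positivity)
        _ = 1 / n := by
            rw [← hij]
            push_cast
            field_simp
    have e2 : (n.divisors.card : ℝ) ≤ C2 * Y := by
      rw [hY]
      apply h2 X n hX (by omega)
      have : (n : ℝ) ≤ ((M * M : ℕ) : ℝ) := by exact_mod_cast hn.2
      rw [hMMr] at this
      linarith
    calc ‖cv M M c c n‖ ^ 2 ≤ (C2 * Y * Real.sqrt (1 / n)) ^ 2 := by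
          apply pow_le_pow_left₀ (norm_nonneg _)
          exact e1.trans (mul_le_mul_of_nonneg_right e2 hs0)
      _ = (C2 * Y) ^ 2 * (1 / n) := by
          rw [mul_pow, Real.sq_sqrt (by positivity)]
  have h5 : ∑ n ∈ Icc 1 (M * M), ‖cv M M c c n‖ ^ 2 ≤ (C2 * Y) ^ 2 * (C3 * Y) := by
    refine (sum_le_sum h4).trans ?_
    rw [← mul_sum]
    apply mul_le_mul_of_nonneg_left _ (by positivity)
    refine (harm62 (M * M)).trans ?_
    rw [hMMr, hY]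
    exact h3 X _ hX (one_le_pow₀ hM1) hM6
  rw [← hY, hYY]
  calc C1 * Y * ((q * T + (M : ℝ) ^ 2) * ∑ n ∈ Icc 1 (M * M), ‖cv M M c c n‖ ^ 2)
      ≤ C1 * Y * ((q * T + (M : ℝ) ^ 2) * ((C2 * Y) ^ 2 * (C3 * Y))) := by gcongr
    _ = C1 * (C2 ^ 2 * C3) * (Y * (Y ^ 2 * Y)) * (q * T + (M : ℝ) ^ 2) := by ring

/-- Hölder's inequality with the exponent `4` -/
lemma jensen4 {f D : ℝ → ℝ} (hf : Integrable f) (hf0 : ∀ y, 0 ≤ f y) (hD : Continuous D) (hD0 : ∀ y, 0 ≤ D y)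
    {B : ℝ} (hB : ∀ y, D y ≤ B) : (∫ y, f y * D y) ^ 4 ≤ (∫ y, f y) ^ 3 * ∫ y, f y * D y ^ 4 := by
  have i1 : Integrable (fun y => f y * D y) := by
    apply hf.mul_bdd (c := B) hD.aestronglyMeasurable
    filter_upwards with y
    rw [Real.norm_eq_abs, abs_of_nonneg (hD0 y)]
    exact hB y
  have i4 : Integrable (fun y => f y * D y ^ 4) := by
    apply hf.mul_bdd (c := B ^ 4) (hD.pow 4).aestronglyMeasurable
    filter_upwards with y
    have e : ‖(D ^ 4) y‖ = D y ^ 4 := by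
      rw [Pi.pow_apply, Real.norm_eq_abs, abs_of_nonneg (pow_nonneg (hD0 y) 4)]
    rw [e]
    exact pow_le_pow_left₀ (hD0 y) (hB y) 4
  obtain ⟨I, hI⟩ : ∃ I, I = ∫ y, f y * D y := ⟨_, rfl⟩
  obtain ⟨R, hR⟩ : ∃ R, R = ∫ y, f y := ⟨_, rfl⟩
  obtain ⟨S, hS⟩ : ∃ S, S = ∫ y, f y * D y ^ 4 := ⟨_, rfl⟩
  rw [← hI, ← hR, ← hS]
  have hI0 : 0 ≤ I := by rw [hI]; exact integral_nonneg fun y => mul_nonneg (hf0 y) (hD0 y)
  have hR0 : 0 ≤ R := by rw [hR]; exact integral_nonneg hf0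
  have hS0 : 0 ≤ S := by rw [hS]; exact integral_nonneg fun y => mul_nonneg (hf0 y) (pow_nonneg (hD0 y) 4)
  have key : ∀ m : ℝ, 0 < m → I ≤ 3 / 4 * m * R + S / (4 * m ^ 3) := by
    intro m hm
    have h1 : ∀ y, f y * D y ≤ 3 / 4 * m * f y + (1 / (4 * m ^ 3)) * (f y * D y ^ 4) := by
      intro y
      have h2 : D y ≤ 3 / 4 * m + (1 / (4 * m ^ 3)) * D y ^ 4 := by
        rw [← sub_nonneg]
        have : 3 / 4 * m + (1 / (4 * m ^ 3)) * D y ^ 4 - D y =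
            ((D y - m) ^ 2 * (D y ^ 2 + 2 * m * D y + 3 * m ^ 2)) / (4 * m ^ 3) := by
          field_simp
          ring
        rw [this]
        have := hD0 y
        positivity
      calc f y * D y ≤ f y * (3 / 4 * m + (1 / (4 * m ^ 3)) * D y ^ 4) := mul_le_mul_of_nonneg_left h2 (hf0 y)
        _ = _ := by ring
    have h3 := integral_mono i1 ((hf.const_mul (3 / 4 * m)).add (i4.const_mul (1 / (4 * m ^ 3)))) h1
    have h4 : ∫ y, (fun y => 3 / 4 * m * f y) y + (fun y => (1 / (4 * m ^ 3)) * (f y * D y ^ 4)) y =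
        3 / 4 * m * R + S / (4 * m ^ 3) := by
      rw [integral_add (hf.const_mul _) (i4.const_mul _), integral_const_mul, integral_const_mul, hR, hS]
      ring
    rw [← hI] at h3
    exact h3.trans (le_of_eq h4)
  rcases hI0.eq_or_lt with h0 | h0
  · rw [← h0, zero_pow (by norm_num)]
    positivity
  rcases hR0.eq_or_lt with hr | hr
  · exfalso
    have hm : 0 < (S + 1) / I + 1 := by positivity
    have h1 := key ((S + 1) / I + 1) hm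
    rw [← hr, mul_zero, zero_add] at h1
    have h2 : (S + 1) / I + 1 ≤ ((S + 1) / I + 1) ^ 3 := le_self_pow₀ (by
      have : 0 ≤ (S + 1) / I := by positivity
      linarith) (by norm_num)
    have h3 : S / (4 * ((S + 1) / I + 1) ^ 3) < I := by
      rw [div_lt_iff₀ (by positivity)]
      have h4 : I * ((S + 1) / I + 1) = S + 1 + I := by
        field_simp
      nlinarith
    linarith
  · have hm : 0 < I / R := by positivity
    have h1 := key (I / R) hm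
    have h2 : 3 / 4 * (I / R) * R = 3 / 4 * I := by field_simp
    have h3 : S / (4 * (I / R) ^ 3) = S * R ^ 3 / (4 * I ^ 3) := by
      rw [div_pow]
      field_simp
    rw [h2, h3] at h1
    have h4 : I / 4 ≤ S * R ^ 3 / (4 * I ^ 3) := by linarith
    rw [le_div_iff₀ (by positivity)] at h4
    nlinarith

end Pool.Agent.Helper62.M4
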