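import Pool.Agent.Helper62.M4.Four

/-!
# M4-Pois: the Poisson summation formula with a primitive character
-/

set_option autoImplicit false

namespace Pool.Agent.Helper62.M4

open Complex MeasureTheory Filter Topology
open scoped FourierTransform ContDiff SchwartzMap

/-- scaling -/
lemma scale {a b : ℝ} {G : ℝ → ℂ} (h : Te a b G) {s : ℝ} (hs : 0 < s) : ∃ f : 𝓢(ℝ, ℂ), ∀ v, f v = G (v * s) := by
  have h1 : HasCompactSupport (fun v : ℝ => G (v * s)) := by
    apply HasCompactSupport.intro (K := Set.Icc (a / s) (b / s)) isCompact_Icc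
    intro v hv
    by_contra h0
    have h2 := h.supp _ h0
    apply hv
    constructor
    · rw [div_le_iff₀ hs]
      exact h2.1
    · rw [le_div_iff₀ hs]
      exact h2.2
  have h2 : ContDiff ℝ ∞ (fun v : ℝ => G (v * s)) := h.smooth.comp (contDiff_id.mul contDiff_const)
  exact ⟨h1.toSchwartzMap h2, fun v => rfl⟩

lemma fourier_scale (G : ℝ → ℂ) {s : ℝ} (hs : 0 < s) (ξ : ℝ) :
    𝓕 (fun v : ℝ => G (v * s)) ξ = ((1 / s : ℝ) : ℂ) * 𝓕 G (ξ / s) := by
  rw [Real.fourier_eq', Real.fourier_eq']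
  have h1 := Measure.integral_comp_mul_right (fun u : ℝ => cexp (((-2 * Real.pi * inner ℝ u (ξ / s) : ℝ) : ℂ) * I) • G u) s
  rw [abs_of_pos (inv_pos.2 hs)] at h1
  have h2 : ∀ v : ℝ, cexp (((-2 * Real.pi * inner ℝ (v * s) (ξ / s) : ℝ) : ℂ) * I) • G (v * s) =
      cexp (((-2 * Real.pi * inner ℝ v ξ : ℝ) : ℂ) * I) • G (v * s) := by
    intro v
    congr 4
    simp only [RCLike.inner_apply, conj_trivial]
    field_simp
  simp only [h2] at h1
  rw [h1]
  rw [Complex.real_smul, one_div]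

lemma summ_fourier {a b : ℝ} {G : ℝ → ℂ} (h : Te a b G) {s : ℝ} (hs : 0 < s) :
    Summable (fun n : ℤ => 𝓕 G (n / s)) := by
  obtain ⟨f, hf⟩ := scale h hs
  have h1 : Summable (fun n : ℤ => (𝓕 f) (n : ℝ)) :=
    summable_of_isBigO (Real.summable_abs_int_rpow one_lt_two)
      (((𝓕 f).isBigO_cocompact_rpow (-2)).comp_tendsto Int.tendsto_coe_cofinite)
  have h2 : ∀ n : ℤ, 𝓕 G (n / s) = (s : ℂ) * (𝓕 f) (n : ℝ) := by
    intro n
    have h3 : (f : ℝ → ℂ) = fun v : ℝ => G (v * s) := by ext v; rw [hf]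
    rw [SchwartzMap.fourier_coe, h3, fourier_scale G hs]
    push_cast
    have : (s : ℂ) ≠ 0 := by exact_mod_cast hs.ne'
    field_simp
  simp only [h2]
  exact h1.mul_left _

/-- Poisson summation with a shift -/
lemma pois_shift {a b : ℝ} {G : ℝ → ℂ} (h : Te a b G) {s : ℝ} (hs : 0 < s) (x : ℝ) :
    ∑' n : ℤ, G ((x + n) * s) = ∑' n : ℤ, ((1 / s : ℝ) : ℂ) * 𝓕 G (n / s) * fourier n (x : UnitAddCircle) := by
  obtain ⟨f, hf⟩ := scale h hs
  have h1 := SchwartzMap.tsum_eq_tsum_fourier f x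
  have h3 : (f : ℝ → ℂ) = fun v : ℝ => G (v * s) := by ext v; rw [hf]
  simp only [hf] at h1
  rw [h1]
  apply tsum_congr
  intro n
  rw [SchwartzMap.fourier_coe, h3, fourier_scale G hs]

/-- The Poisson summation formula with a primitive character. -/
theorem pois {a b : ℝ} (ha : 0 < a) {G : ℝ → ℂ} (h : Te a b G) {q : ℕ} [NeZero q] {χ : DirichletCharacter ℂ q}
    (hχ : χ.IsPrimitive) {L : ℝ} (hL : 0 < L) :
    ∑' n : ℕ, χ (n : ZMod q) * G (n / L) =
      gaussSum χ ZMod.stdAddChar * ((L / q : ℝ) : ℂ) * ∑' m : ℤ, χ⁻¹ (m : ZMod q) * 𝓕 G (m * (L / q)) := by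
  have hq0 : (0 : ℝ) < q := by exact_mod_cast Nat.pos_of_ne_zero (NeZero.ne q)
  have hs : (0 : ℝ) < q / L := by positivity
  have hdiv : ∀ m : ℤ, (m : ℝ) / (q / L) = m * (L / q) := by
    intro m
    field_simp
  have hsum : Summable (fun n : ℕ => χ (n : ZMod q) * G (n / L)) := by
    apply summable_of_ne_finset_zero (s := Finset.range (⌊b * L⌋₊ + 1))
    intro n hn
    rw [Finset.mem_range, not_lt] at hn
    have h1 : b * L < n := by
      have := Nat.lt_of_floor_lt (Nat.lt_of_succ_le hn)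
      exact this
    have h2 : b < n / L := by rw [lt_div_iff₀ hL]; exact h1
    rw [h.eq_zero (Or.inr h2), mul_zero]
  rw [Nat.sumByResidueClasses hsum q]
  have hS : Summable (fun m : ℤ => 𝓕 G (m / (q / L))) := summ_fourier h hs
  have hres : ∀ j : ZMod q, ∑' m : ℕ, χ ((j.val + q * m : ℕ) : ZMod q) * G (((j.val + q * m : ℕ) : ℝ) / L) =
      ∑' m : ℤ, ((L / q : ℝ) : ℂ) * (𝓕 G (m * (L / q)) * (χ j * ZMod.stdAddChar ((m : ZMod q) * j))) := by
    intro j
    have hjq : (j.val : ℝ) < q := by exact_mod_cast ZMod.val_lt j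
    have e1 : ∀ m : ℕ, χ ((j.val + q * m : ℕ) : ZMod q) * G (((j.val + q * m : ℕ) : ℝ) / L) =
        (fun m : ℤ => χ j * G (((j.val : ℝ) / q + m) * (q / L))) (m : ℤ) := by
      intro m
      simp only
      have e2 : ((j.val + q * m : ℕ) : ZMod q) = j := by
        push_cast
        rw [ZMod.natCast_self, zero_mul, add_zero, ZMod.natCast_zmod_val]
      rw [e2]
      congr 2
      push_cast
      field_simp
    simp_rw [e1]
    rw [Function.Injective.tsum_eq (f := fun m : ℤ => χ j * G (((j.val : ℝ) / q + m) * (q / L)))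
      (g := fun m : ℕ => (m : ℤ)) Nat.cast_injective]
    · rw [tsum_mul_left, pois_shift h hs, ← tsum_mul_left]
      apply tsum_congr
      intro m
      rw [hdiv, fourier_coe_apply]
      have e3 : ((m : ZMod q) * j) = (((m * (j.val : ℤ) : ℤ)) : ZMod q) := by
        push_cast
        rw [ZMod.natCast_zmod_val]
      rw [e3, ZMod.stdAddChar_coe]
      have e4 : ((1 / (q / L) : ℝ) : ℂ) = ((L / q : ℝ) : ℂ) := by
        congr 1
        field_simp
      rw [e4]
      have e5 : cexp (2 * Real.pi * I * m * (((j.val : ℝ) / q : ℝ) : ℂ) / ((1 : ℝ) : ℂ)) =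
          cexp (2 * Real.pi * I * ((m * (j.val : ℤ) : ℤ) : ℂ) / q) := by
        congr 1
        push_cast
        ring
      rw [e5]
      ring
    · intro m hm
      rw [Set.mem_range]
      by_contra hcon
      apply hm
      have hm0 : m < 0 := by
        by_contra h0
        push Not at h0
        exact hcon ⟨m.toNat, by simp [h0]⟩
      have hm1 : (m : ℝ) ≤ -1 := by exact_mod_cast (by omega : m ≤ -1)
      have h1 : ((j.val : ℝ) / q + m) * (q / L) < a := by
        have h2 : (j.val : ℝ) / q < 1 := by rw [div_lt_one hq0]; exact hjq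
        have h3 : ((j.val : ℝ) / q + m) * (q / L) ≤ 0 := by
          apply mul_nonpos_of_nonpos_of_nonneg _ hs.le
          linarith
        linarith
      simp only
      rw [h.eq_zero (Or.inl h1), mul_zero]
  simp_rw [hres]
  rw [← Summable.tsum_finsetSum]
  · rw [← tsum_mul_left]
    apply tsum_congr
    intro m
    rw [← Finset.mul_sum, ← Finset.mul_sum]
    have e1 : ∑ j : ZMod q, χ j * ZMod.stdAddChar ((m : ZMod q) * j) = χ⁻¹ (m : ZMod q) * gaussSum χ ZMod.stdAddChar := by
      rw [← gaussSum_mulShift_of_isPrimitive _ hχ (m : ZMod q)]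
      unfold gaussSum
      refine Finset.sum_congr rfl fun j _ => ?_
      rw [AddChar.mulShift_apply]
    rw [e1]
    ring
  · intro j _
    have h1 : Summable (fun m : ℤ => ‖𝓕 G (m / (q / L))‖) := hS.norm
    simp_rw [hdiv] at h1
    apply Summable.mul_left
    apply Summable.of_norm_bounded h1
    intro m
    rw [norm_mul, norm_mul]
    have h2 : ‖χ j‖ ≤ 1 := χ.norm_le_one j
    have h3 : ‖(ZMod.stdAddChar ((m : ZMod q) * j) : ℂ)‖ = 1 := AddChar.norm_apply _ _
    rw [h3, mul_one]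
    exact mul_le_of_le_one_right (norm_nonneg _) h2

end Pool.Agent.Helper62.M4
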