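import Pool.Agent.Helper62.M4.Mom

/-!
# M4-Prim: the fourth moment of the smooth sums over the primitive characters modulo `q`
-/

set_option autoImplicit false

namespace Pool.Agent.Helper62.M4

open Finset MeasureTheory
open Pool.Agent.Helper25.HM (nt norm_nt nt_add P)

/-- the smooth sum -/
noncomputable def Fs (ψ : ℝ → ℂ) {q : ℕ} (χ : DirichletCharacter ℂ q) (t L : ℝ) : ℂ :=
  ∑' n : ℕ, χ (n : ZMod q) * gf ψ t (n / L)

lemma Fs_eq {a b : ℝ} (ha : 0 < a) {ψ : ℝ → ℂ} (h : Te a b ψ) {q : ℕ} (χ : DirichletCharacter ℂ q) (t : ℝ) {L : ℝ}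
    (hL : 0 < L) : Fs ψ χ t L = (∑ n ∈ Icc 1 ⌊b * L⌋₊, ψ (n / L) * (χ (n : ZMod q) * nt n t)) *
      Complex.exp (((-(t * Real.log L) : ℝ) : ℂ) * Complex.I) := by
  unfold Fs
  rw [tsum_eq_sum (s := Icc 1 ⌊b * L⌋₊), sum_mul]
  · refine sum_congr rfl fun n hn => ?_
    rw [mem_Icc] at hn
    have hn0 : (0 : ℝ) < n := by exact_mod_cast hn.1
    unfold gf nt
    have e1 : Complex.exp (((t * Real.log (n / L) : ℝ) : ℂ) * Complex.I) =
        Complex.exp (Complex.I * ((t * Real.log n : ℝ) : ℂ)) * Complex.exp (((-(t * Real.log L) : ℝ) : ℂ) * Complex.I) := by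
      rw [← Complex.exp_add, Real.log_div hn0.ne' hL.ne']
      congr 1
      push_cast
      ring
    rw [e1]
    ring
  · intro n hn
    rw [mem_Icc, not_and_or, not_le, not_le] at hn
    have h0 : (n : ℝ) / L < a ∨ b < (n : ℝ) / L := by
      rcases hn with h1 | h1
      · left
        have : n = 0 := by omega
        rw [this]
        simpa using ha
      · right
        rw [lt_div_iff₀ hL]
        exact Nat.lt_of_floor_lt h1
    unfold gf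
    rw [h.eq_zero h0, zero_mul, mul_zero]

lemma norm_Fs {a b : ℝ} (ha : 0 < a) {ψ : ℝ → ℂ} (h : Te a b ψ) {q : ℕ} (χ : DirichletCharacter ℂ q) (k : ℤ) (w : ℝ)
    {L : ℝ} (hL : 0 < L) : ‖Fs ψ χ (k + w) L‖ = ‖P ⌊b * L⌋₊ (fun n => ψ (n / L) * nt n w) (χ, k)‖ := by
  rw [Fs_eq ha h χ _ hL, norm_mul, Complex.norm_exp_ofReal_mul_I, mul_one]
  unfold P
  congr 1
  refine sum_congr rfl fun n _ => ?_
  rw [nt_add]
  ring

lemma Dn_P {q : ℕ} (χ : DirichletCharacter ℂ q) (H : ℕ) (k : ℤ) (w : ℝ) :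
    Dn χ H (k + w) = P H (fun n => (((n : ℝ) ^ (-(1 / 2) : ℝ) : ℝ) : ℂ) * nt n w) (χ, k) := by
  unfold Dn P
  refine sum_congr rfl fun n _ => ?_
  rw [nt_add]
  ring

lemma card_char_le (q : ℕ) [NeZero q] : ((univ : Finset (DirichletCharacter ℂ q)).card : ℝ) ≤ q := by
  have : (univ : Finset (DirichletCharacter ℂ q)).card ≤ q := by
    rw [Finset.card_univ, ← Nat.card_eq_fintype_card, DirichletCharacter.card_eq_totient_of_hasEnoughRootsOfUnity]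
    exact Nat.totient_le q
  exact_mod_cast this

lemma card_pairs_le (q : ℕ) [NeZero q] {T : ℕ} (hT : 1 ≤ T) :
    (((univ : Finset (DirichletCharacter ℂ q)) ×ˢ Icc (-(T : ℤ)) T).card : ℝ) ≤ 3 * (q * T) := by
  rw [card_product, Nat.cast_mul]
  have h1 := card_char_le q
  have h2 : ((Icc (-(T : ℤ)) T).card : ℝ) ≤ 3 * T := by
    have : (Icc (-(T : ℤ)) T).card = 2 * T + 1 := by
      rw [Int.card_Icc]
      omega
    rw [this]
    push_cast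
    have : (1 : ℝ) ≤ T := by exact_mod_cast hT
    linarith
  calc _ ≤ (q : ℝ) * (3 * T) := mul_le_mul h1 h2 (Nat.cast_nonneg _) (Nat.cast_nonneg _)
    _ = _ := by ring

/-- the fourth moment of the integrals of the dual sums -/
lemma sumI {q : ℕ} [NeZero q] {T H : ℕ} {S : Finset (DirichletCharacter ℂ q × ℤ)}
    (hS : S ⊆ (univ : Finset (DirichletCharacter ℂ q)) ×ˢ Icc (-(T : ℤ)) T) {f : ℝ → ℝ} (hf : Integrable f)
    (hf0 : ∀ y, 0 ≤ f y) {v : DirichletCharacter ℂ q × ℤ → ℝ → ℝ} (hv : ∀ p, Continuous (v p)) {u : ℝ → ℝ}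
    (hu : ∀ p y, v p y = (p.2 : ℝ) + u y) {Mo : ℝ}
    (hMo : ∀ w : ℝ, ∑ p ∈ (univ : Finset (DirichletCharacter ℂ q)) ×ˢ Icc (-(T : ℤ)) T, ‖Dn p.1 H (p.2 + w)‖ ^ 4 ≤ Mo) :
    ∑ p ∈ S, (∫ y, f y * ‖Dn p.1 H (v p y)‖) ^ 4 ≤ (∫ y, f y) ^ 4 * Mo := by
  have hR0 : 0 ≤ ∫ y, f y := integral_nonneg hf0
  have hint : ∀ p ∈ S, Integrable (fun y => f y * ‖Dn p.1 H (v p y)‖ ^ 4) := by
    intro p _
    apply hf.mul_bdd (c := (H : ℝ) ^ 4)
    · exact (((Dn_cont p.1 H).comp (hv p)).norm.pow 4).aestronglyMeasurable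
    · filter_upwards with y
      have e : ‖‖Dn p.1 H (v p y)‖ ^ 4‖ = ‖Dn p.1 H (v p y)‖ ^ 4 := by
        rw [Real.norm_eq_abs, abs_of_nonneg (pow_nonneg (norm_nonneg _) 4)]
      rw [e]
      exact pow_le_pow_left₀ (norm_nonneg _) (Dn_le _ _ _) 4
  have h1 : ∀ p ∈ S, (∫ y, f y * ‖Dn p.1 H (v p y)‖) ^ 4 ≤
      (∫ y, f y) ^ 3 * ∫ y, f y * ‖Dn p.1 H (v p y)‖ ^ 4 := fun p _ =>
    jensen4 hf hf0 ((Dn_cont p.1 H).comp (hv p)).norm (fun _ => norm_nonneg _) (B := H) (fun _ => Dn_le _ _ _)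
  refine (sum_le_sum h1).trans ?_
  rw [← mul_sum, ← integral_finsetSum _ hint]
  have h2 : ∫ y, ∑ p ∈ S, f y * ‖Dn p.1 H (v p y)‖ ^ 4 ≤ ∫ y, f y * Mo := by
    apply integral_mono (integrable_finsetSum _ hint) (hf.mul_const _)
    intro y
    simp only
    rw [← mul_sum]
    apply mul_le_mul_of_nonneg_left _ (hf0 y)
    refine le_trans ?_ (hMo (u y))
    have h3 : ∑ p ∈ S, ‖Dn p.1 H (v p y)‖ ^ 4 = ∑ p ∈ S, ‖Dn p.1 H (p.2 + u y)‖ ^ 4 :=
      sum_congr rfl fun p _ => by rw [hu]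
    rw [h3]
    exact sum_le_sum_of_subset_of_nonneg hS fun _ _ _ => by positivity
  rw [integral_mul_const] at h2
  calc (∫ y, f y) ^ 3 * ∫ y, ∑ p ∈ S, f y * ‖Dn p.1 H (v p y)‖ ^ 4 ≤ (∫ y, f y) ^ 3 * ((∫ y, f y) * Mo) :=
        mul_le_mul_of_nonneg_left h2 (by positivity)
    _ = _ := by ring

private lemma two4 (x y : ℝ) : (x + y) ^ 4 ≤ 8 * (x ^ 4 + y ^ 4) := by
  have a1 : (x + y) ^ 2 ≤ 2 * x ^ 2 + 2 * y ^ 2 := by nlinarith [sq_nonneg (x - y)]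
  have a2 : (2 * x ^ 2 + 2 * y ^ 2) ^ 2 ≤ 8 * (x ^ 4 + y ^ 4) := by nlinarith [sq_nonneg (x ^ 2 - y ^ 2)]
  calc (x + y) ^ 4 = ((x + y) ^ 2) ^ 2 := by ring
    _ ≤ (2 * x ^ 2 + 2 * y ^ 2) ^ 2 := pow_le_pow_left₀ (sq_nonneg _) a1 2
    _ ≤ _ := a2

private lemma three4 (x y z : ℝ) : (x + y + z) ^ 4 ≤ 27 * (x ^ 4 + y ^ 4 + z ^ 4) := by
  have e1 : (x + y + z) ^ 2 ≤ 3 * (x ^ 2 + y ^ 2 + z ^ 2) := by
    nlinarith [sq_nonneg (x - y), sq_nonneg (y - z), sq_nonneg (x - z)]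
  have e2 : (x ^ 2 + y ^ 2 + z ^ 2) ^ 2 ≤ 3 * (x ^ 4 + y ^ 4 + z ^ 4) := by
    nlinarith [sq_nonneg (x ^ 2 - y ^ 2), sq_nonneg (y ^ 2 - z ^ 2), sq_nonneg (x ^ 2 - z ^ 2)]
  calc (x + y + z) ^ 4 = ((x + y + z) ^ 2) ^ 2 := by ring
    _ ≤ (3 * (x ^ 2 + y ^ 2 + z ^ 2)) ^ 2 := pow_le_pow_left₀ (sq_nonneg _) e1 2
    _ = 9 * (x ^ 2 + y ^ 2 + z ^ 2) ^ 2 := by ring
    _ ≤ _ := by linarith

private lemma sq_one (x : ℝ) : (3 * x + 1) ^ 2 ≤ 2 * (9 * x ^ 2) + 2 := by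
  nlinarith [sq_nonneg (3 * x - 1)]

open Classical in
/-- The fourth moment over the primitive characters modulo `q` and one shift. -/
theorem prim4 {a b : ℝ} (ha : 0 < a) {ψ : ℝ → ℂ} (h : Te a b ψ) {ε : ℝ} (hε : 0 < ε) : ∃ C : ℝ, 0 < C ∧
    ∀ (X : ℝ) (q : ℕ) [NeZero q] (T : ℕ) (L w : ℝ), 1 ≤ X → 1 ≤ T → 0 < L → 0 ≤ w → w ≤ 1 →
    (q : ℝ) ≤ X → (T : ℝ) ≤ X → L ≤ X →
    ∑ p ∈ (((univ : Finset (DirichletCharacter ℂ q)).filter (fun χ => χ.IsPrimitive)) ×ˢ Icc (-(T : ℤ)) T).filter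
        (fun p => ¬ (q = 1 ∧ |(p.2 : ℝ)| ≤ X ^ ε)), ‖Fs ψ p.1 (p.2 + w) L‖ ^ 4 ≤
      C * X ^ ε * (q * T * L ^ 2) := by
  obtain ⟨e, he⟩ : ∃ e : ℝ, e = min ε 1 / 4 := ⟨_, rfl⟩
  have hm0 : 0 < min ε 1 := lt_min hε one_pos
  have he0 : 0 < e := by rw [he]; positivity
  have he1 : 4 * e ≤ ε := by rw [he]; linarith [min_le_left ε 1]
  have he2 : 4 * e ≤ 1 := by rw [he]; linarith [min_le_right ε 1]
  obtain ⟨D, hD⟩ : ∃ D : ℝ, D = |b| + 4 := ⟨_, rfl⟩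
  have hb0 : 0 ≤ |b| := abs_nonneg b
  have hD1 : 1 ≤ D := by rw [hD]; linarith
  obtain ⟨B0, hB0⟩ := h.smooth.continuous.bounded_above_of_compact_support h.hcs
  obtain ⟨B, hB⟩ : ∃ B : ℝ, B = |B0| := ⟨_, rfl⟩
  have hBψ : ∀ u, ‖ψ u‖ ≤ B := fun u => (hB0 u).trans (by rw [hB]; exact le_abs_self _)
  have hBnn : 0 ≤ B := by rw [hB]; exact abs_nonneg _
  obtain ⟨C1, hC1, h1⟩ := mom1 (e := ε) (D := D) (B := B) hε hD1 hBnn
  obtain ⟨C2, hC2, h2⟩ := mom2 (e := 2 * e) (D := D) (by positivity) hD1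
  obtain ⟨A, hA⟩ : ∃ A : ℕ, A = 2 + ⌈7 / e⌉₊ := ⟨_, rfl⟩
  have hA2 : 2 ≤ A := by omega
  have heA : 7 ≤ e * A := by
    rw [hA]
    push_cast
    have h3 : 7 / e ≤ (⌈7 / e⌉₊ : ℝ) := Nat.le_ceil _
    have h4 : e * (7 / e) = 7 := by field_simp
    nlinarith
  obtain ⟨C3, hC3, h3⟩ := refl ha h hA2
  obtain ⟨A', hA'⟩ : ∃ A' : ℕ, A' = ⌈1 / ε⌉₊ := ⟨_, rfl⟩
  have heA' : 1 ≤ ε * A' := by
    rw [hA']
    have h3 : 1 / ε ≤ (⌈1 / ε⌉₊ : ℝ) := Nat.le_ceil _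
    have h4 : ε * (1 / ε) = 1 := by field_simp
    nlinarith
  obtain ⟨C4, hC4, h4⟩ := mzero ha A' ψ h
  obtain ⟨R1, hR1⟩ : ∃ R1 : ℝ, R1 = ∫ y, ‖rho ψ y‖ := ⟨_, rfl⟩
  obtain ⟨R2, hR2⟩ : ∃ R2 : ℝ, R2 = ∫ y, ‖rho (cj ψ) y‖ := ⟨_, rfl⟩
  have hcj : Te a b (cj ψ) := h.conj'
  have hR10 : 0 ≤ R1 := by rw [hR1]; exact integral_nonneg fun _ => norm_nonneg _
  have hR20 : 0 ≤ R2 := by rw [hR2]; exact integral_nonneg fun _ => norm_nonneg _
  refine ⟨C1 * ((1 + |b| ^ 2) * |b| ^ 2) + 216 * ((R1 ^ 4 + R2 ^ 4) * (C2 * 21)) + 81 * ((16 * C3) ^ 4 + C4 ^ 4) + 1,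
    by positivity, fun X q _ T L w hX hT hL hw0 hw1 hqX hTX hLX => ?_⟩
  have hX0 : 0 < X := by linarith
  have hq0 : (0 : ℝ) < q := by exact_mod_cast Nat.pos_of_ne_zero (NeZero.ne q)
  have hq1 : (1 : ℝ) ≤ q := by exact_mod_cast Nat.one_le_iff_ne_zero.2 (NeZero.ne q)
  have hT1 : (1 : ℝ) ≤ T := by exact_mod_cast hT
  have hQ1 : 1 ≤ (q : ℝ) * T := by nlinarith
  have hXε : 1 ≤ X ^ ε := Real.one_le_rpow hX hε.le
  obtain ⟨S, hS⟩ : ∃ S, S = (((univ : Finset (DirichletCharacter ℂ q)).filter (fun χ => χ.IsPrimitive)) ×ˢ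
      Icc (-(T : ℤ)) T).filter (fun p => ¬ (q = 1 ∧ |(p.2 : ℝ)| ≤ X ^ ε)) := ⟨_, rfl⟩
  rw [← hS]
  have hSsub : S ⊆ (univ : Finset (DirichletCharacter ℂ q)) ×ˢ Icc (-(T : ℤ)) T := by
    intro p hp
    rw [hS, mem_filter, mem_product] at hp
    exact mem_product.2 ⟨mem_univ _, hp.1.2⟩
  have hQL0 : 0 ≤ (q : ℝ) * T * L ^ 2 := by positivity
  rcases le_total (L ^ 2) ((q : ℝ) * T) with hcase | hcase
  · -- the mean value theorem
    obtain ⟨M, hM⟩ : ∃ M : ℕ, M = ⌊b * L⌋₊ := ⟨_, rfl⟩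
    have hMb : (M : ℝ) ≤ |b| * L := by
      rcases le_total 0 (b * L) with h0 | h0
      · rw [hM]
        refine (Nat.floor_le h0).trans ?_
        exact mul_le_mul_of_nonneg_right (le_abs_self b) hL.le
      · rw [hM, Nat.floor_of_nonpos h0, Nat.cast_zero]
        positivity
    have hmain : ∑ p ∈ S, ‖Fs ψ p.1 (p.2 + w) L‖ ^ 4 ≤ C1 * X ^ ε * ((q * T + (M : ℝ) ^ 2) * (M : ℝ) ^ 2) := by
      rcases Nat.eq_zero_or_pos M with hM0 | hM0
      · have : ∑ p ∈ S, ‖Fs ψ p.1 (p.2 + w) L‖ ^ 4 = 0 := by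
          apply sum_eq_zero
          intro p _
          rw [norm_Fs ha h p.1 p.2 w hL, ← hM, hM0]
          unfold P
          simp
        rw [this]
        positivity
      · have hMX : (M : ℝ) ≤ D * X ^ 3 := by
          have e1 : |b| * L ≤ |b| * X := mul_le_mul_of_nonneg_left hLX hb0
          have e2 : X ≤ X ^ 3 := le_self_pow₀ hX (by norm_num)
          have e3 : |b| * X ≤ D * X ^ 3 := by
            apply mul_le_mul _ e2 hX0.le (by linarith)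
            rw [hD]; linarith
          linarith
        have e1 := h1 X q T M hX hT hM0 hMX (fun n => ψ (n / L) * nt n w) (fun n _ => by
          rw [norm_mul, norm_nt, mul_one]
          exact hBψ _)
        refine le_trans ?_ e1
        have e2 : ∑ p ∈ S, ‖Fs ψ p.1 (p.2 + w) L‖ ^ 4 =
            ∑ p ∈ S, ‖P M (fun n => ψ (n / L) * nt n w) p‖ ^ 4 :=
          sum_congr rfl fun p _ => by rw [norm_Fs ha h p.1 p.2 w hL, hM]
        rw [e2]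
        exact sum_le_sum_of_subset_of_nonneg hSsub fun _ _ _ => by positivity
    refine hmain.trans ?_
    have hM2 : (M : ℝ) ^ 2 ≤ |b| ^ 2 * L ^ 2 := by
      calc (M : ℝ) ^ 2 ≤ (|b| * L) ^ 2 := pow_le_pow_left₀ (Nat.cast_nonneg _) hMb 2
        _ = _ := by ring
    have e1 : (q * T + (M : ℝ) ^ 2) * (M : ℝ) ^ 2 ≤ (1 + |b| ^ 2) * |b| ^ 2 * (q * T * L ^ 2) := by
      have e2 : (q * T + (M : ℝ) ^ 2) ≤ (1 + |b| ^ 2) * (q * T) := by
        have : |b| ^ 2 * L ^ 2 ≤ |b| ^ 2 * (q * T) := mul_le_mul_of_nonneg_left hcase (by positivity)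
        linarith
      calc (q * T + (M : ℝ) ^ 2) * (M : ℝ) ^ 2 ≤ ((1 + |b| ^ 2) * (q * T)) * (|b| ^ 2 * L ^ 2) :=
            mul_le_mul e2 hM2 (by positivity) (by positivity)
        _ = _ := by ring
    calc C1 * X ^ ε * ((q * T + (M : ℝ) ^ 2) * (M : ℝ) ^ 2)
        ≤ C1 * X ^ ε * ((1 + |b| ^ 2) * |b| ^ 2 * (q * T * L ^ 2)) := by gcongr
      _ = C1 * ((1 + |b| ^ 2) * |b| ^ 2) * X ^ ε * (q * T * L ^ 2) := by ring
      _ ≤ _ := by
        gcongr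
        have : 0 ≤ 216 * ((R1 ^ 4 + R2 ^ 4) * (C2 * 21)) + 81 * ((16 * C3) ^ 4 + C4 ^ 4) + 1 := by positivity
        linarith
  · -- the reflection
    have hL1 : 1 ≤ L := by nlinarith
    obtain ⟨Λ, hΛ⟩ : ∃ Λ : ℝ, Λ = X ^ e := ⟨_, rfl⟩
    have hΛ1 : 1 ≤ Λ := by rw [hΛ]; exact Real.one_le_rpow hX he0.le
    have hΛ0 : 0 < Λ := by linarith
    have hΛX : Λ ≤ X := by
      rw [hΛ]
      calc X ^ e ≤ X ^ (1 : ℝ) := Real.rpow_le_rpow_of_exponent_le hX (by linarith)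
        _ = X := Real.rpow_one _
    obtain ⟨H, hH⟩ : ∃ H : ℕ, H = ⌈Λ * (q * (T + 2) / L)⌉₊ := ⟨_, rfl⟩
    have hq2 : 0 < Λ * ((q : ℝ) * (T + 2) / L) := by positivity
    have hHge : Λ * (q * (T + 2) / L) ≤ H := by rw [hH]; exact Nat.le_ceil _
    have hH1 : 1 ≤ H := by
      rw [hH, Nat.one_le_ceil_iff]
      exact hq2
    have hH0 : (0 : ℝ) < H := by exact_mod_cast hH1
    have hHle : (H : ℝ) ≤ 3 * (Λ * (q * T / L)) + 1 := by
      have e1 : (H : ℝ) < Λ * (q * (T + 2) / L) + 1 := by rw [hH]; exact Nat.ceil_lt_add_one hq2.le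
      have e2 : Λ * ((q : ℝ) * (T + 2) / L) ≤ 3 * (Λ * (q * T / L)) := by
        have : (q : ℝ) * (T + 2) / L ≤ 3 * (q * T / L) := by
          rw [mul_div_assoc', div_le_div_iff_of_pos_right hL]
          nlinarith
        calc Λ * ((q : ℝ) * (T + 2) / L) ≤ Λ * (3 * (q * T / L)) := mul_le_mul_of_nonneg_left this hΛ0.le
          _ = _ := by ring
      linarith
    have hH2 : (H : ℝ) ^ 2 ≤ 20 * (Λ ^ 2 * (q * T)) := by
      have e1 : ((q : ℝ) * T / L) ^ 2 ≤ q * T := by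
        rw [div_pow, div_le_iff₀ (by positivity)]
        calc ((q : ℝ) * T) ^ 2 = (q * T) * (q * T) := by ring
          _ ≤ (q * T) * L ^ 2 := mul_le_mul_of_nonneg_left hcase (by positivity)
      have e2 : (H : ℝ) ^ 2 ≤ (3 * (Λ * (q * T / L)) + 1) ^ 2 := pow_le_pow_left₀ hH0.le hHle 2
      have e3 : (3 * (Λ * ((q : ℝ) * T / L)) + 1) ^ 2 ≤ 2 * (9 * (Λ ^ 2 * (q * T / L) ^ 2)) + 2 := by
        have := sq_one (Λ * ((q : ℝ) * T / L))
        rwa [mul_pow] at this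
      have e4 : Λ ^ 2 * ((q : ℝ) * T / L) ^ 2 ≤ Λ ^ 2 * (q * T) := mul_le_mul_of_nonneg_left e1 (by positivity)
      have e5 : 1 ≤ Λ ^ 2 * ((q : ℝ) * T) := one_le_mul_of_one_le_of_one_le (one_le_pow₀ hΛ1) hQ1
      linarith
    have hHX : (H : ℝ) ≤ 4 * X ^ 3 := by
      have e1 : (q : ℝ) * T / L ≤ X * X := by
        rw [div_le_iff₀ hL]
        have : (q : ℝ) * T ≤ X * X := mul_le_mul hqX hTX (by linarith) hX0.le
        exact this.trans (le_mul_of_one_le_right (by positivity) hL1)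
      have e2 : Λ * ((q : ℝ) * T / L) ≤ X * (X * X) := mul_le_mul hΛX e1 (by positivity) hX0.le
      have e3 : 1 ≤ X ^ 3 := one_le_pow₀ hX
      have e4 : X * (X * X) = X ^ 3 := by ring
      linarith
    have hMo : ∀ w' : ℝ, ∑ p ∈ (univ : Finset (DirichletCharacter ℂ q)) ×ˢ Icc (-(T : ℤ)) T,
        ‖Dn p.1 H (p.2 + w')‖ ^ 4 ≤ C2 * 21 * X ^ ε * (q * T) := by
      intro w'
      have e1 := h2 X q T H hX hT hH1 (hHX.trans (mul_le_mul_of_nonneg_right (by rw [hD]; linarith)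
        (by positivity))) (fun n => (((n : ℝ) ^ (-(1 / 2) : ℝ) : ℝ) : ℂ) * nt n w') (fun n hn => by
          have hn1 : (0 : ℝ) < n := by exact_mod_cast (mem_Icc.1 hn).1
          rw [norm_mul, norm_nt, mul_one, Complex.norm_real, Real.norm_eq_abs, sq_abs, ← Real.rpow_natCast,
            ← Real.rpow_mul hn1.le]
          apply le_of_eq
          have e : (-(1 / 2) : ℝ) * ((2 : ℕ) : ℝ) = -1 := by push_cast; norm_num
          rw [e, Real.rpow_neg_one, one_div])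
      have e2 : ∑ p ∈ (univ : Finset (DirichletCharacter ℂ q)) ×ˢ Icc (-(T : ℤ)) T, ‖Dn p.1 H (p.2 + w')‖ ^ 4 =
          ∑ p ∈ (univ : Finset (DirichletCharacter ℂ q)) ×ˢ Icc (-(T : ℤ)) T,
            ‖P H (fun n => (((n : ℝ) ^ (-(1 / 2) : ℝ) : ℝ) : ℂ) * nt n w') p‖ ^ 4 :=
        sum_congr rfl fun p _ => by rw [Dn_P]
      rw [e2]
      refine e1.trans ?_
      have e3 : (q : ℝ) * T + (H : ℝ) ^ 2 ≤ 21 * (Λ ^ 2 * (q * T)) := by
        have : (q : ℝ) * T ≤ Λ ^ 2 * (q * T) := le_mul_of_one_le_left (by positivity) (one_le_pow₀ hΛ1)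
        linarith
      have e4 : X ^ (2 * e) * Λ ^ 2 ≤ X ^ ε := by
        rw [hΛ, ← Real.rpow_natCast, ← Real.rpow_mul hX0.le, ← Real.rpow_add hX0]
        apply Real.rpow_le_rpow_of_exponent_le hX
        push_cast
        linarith
      calc C2 * X ^ (2 * e) * (q * T + (H : ℝ) ^ 2) ≤ C2 * X ^ (2 * e) * (21 * (Λ ^ 2 * (q * T))) := by gcongr
        _ = C2 * 21 * (X ^ (2 * e) * Λ ^ 2) * (q * T) := by ring
        _ ≤ C2 * 21 * X ^ ε * (q * T) := by gcongr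
    obtain ⟨Mo, hMoe⟩ : ∃ Mo : ℝ, Mo = C2 * 21 * X ^ ε * (q * T) := ⟨_, rfl⟩
    rw [← hMoe] at hMo
    have hI1 := sumI (T := T) (H := H) hSsub (rho_int ha h).norm (fun _ => norm_nonneg _)
      (v := fun p y => ((p.2 : ℝ) + w) + 2 * Real.pi * y) (fun p => by fun_prop)
      (u := fun y => w + 2 * Real.pi * y) (fun p y => by ring) hMo
    have hI2 := sumI (T := T) (H := H) hSsub (rho_int ha hcj).norm (fun _ => norm_nonneg _)
      (v := fun p y => ((p.2 : ℝ) + w) - 2 * Real.pi * y) (fun p => by fun_prop)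
      (u := fun y => w - 2 * Real.pi * y) (fun p y => by ring) hMo
    rw [← hR1] at hI1
    rw [← hR2] at hI2
    -- the pointwise bound
    have hpt : ∀ p ∈ S, ‖Fs ψ p.1 (p.2 + w) L‖ ^ 4 ≤
        216 * L ^ 2 * ((∫ y, ‖rho ψ y‖ * ‖Dn p.1 H (((p.2 : ℝ) + w) + 2 * Real.pi * y)‖) ^ 4 +
          (∫ y, ‖rho (cj ψ) y‖ * ‖Dn p.1 H (((p.2 : ℝ) + w) - 2 * Real.pi * y)‖) ^ 4) +
        27 * ((16 * C3) ^ 4 + C4 ^ 4) := by
      intro p hp
      rw [hS, mem_filter, mem_product, mem_filter, mem_Icc] at hp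
      obtain ⟨⟨⟨_, hprim⟩, hk1, hk2⟩, hexc⟩ := hp
      have hk : |(p.2 : ℝ)| ≤ T := by
        rw [abs_le]
        exact ⟨by exact_mod_cast hk1, by exact_mod_cast hk2⟩
      have ht : |(p.2 : ℝ) + w| ≤ T + 1 := by
        have := abs_add_le (p.2 : ℝ) w
        rw [abs_of_nonneg hw0] at this
        linarith
      have hr := h3 hprim hL ((p.2 : ℝ) + w) hH1
      obtain ⟨I1, hI1'⟩ : ∃ I1 : ℝ, I1 = ∫ y, ‖rho ψ y‖ * ‖Dn p.1 H (((p.2 : ℝ) + w) + 2 * Real.pi * y)‖ := ⟨_, rfl⟩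
      obtain ⟨I2, hI2'⟩ : ∃ I2 : ℝ, I2 = ∫ y, ‖rho (cj ψ) y‖ * ‖Dn p.1 H (((p.2 : ℝ) + w) - 2 * Real.pi * y)‖ :=
        ⟨_, rfl⟩
      rw [← hI1', ← hI2'] at hr ⊢
      have hI10 : 0 ≤ I1 := by rw [hI1']; exact integral_nonneg fun _ => by positivity
      have hI20 : 0 ≤ I2 := by rw [hI2']; exact integral_nonneg fun _ => by positivity
      have hy : L * (C3 * (((1 + |(p.2 : ℝ) + w|) * (q / L)) ^ A / (H : ℝ) ^ (A - 2))) ≤ 16 * C3 := by
        have e1 : (1 + |(p.2 : ℝ) + w|) * (q / L) ≤ H / Λ := by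
          rw [le_div_iff₀ hΛ0]
          calc (1 + |(p.2 : ℝ) + w|) * (q / L) * Λ ≤ (T + 2) * (q / L) * Λ := by
                apply mul_le_mul_of_nonneg_right _ hΛ0.le
                apply mul_le_mul_of_nonneg_right _ (by positivity)
                linarith
            _ = Λ * (q * (T + 2) / L) := by ring
            _ ≤ H := hHge
        have e2 : ((1 + |(p.2 : ℝ) + w|) * (q / L)) ^ A / (H : ℝ) ^ (A - 2) ≤ (H : ℝ) ^ 2 / Λ ^ A := by
          rw [div_le_div_iff₀ (by positivity) (by positivity)]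
          have e3 : ((1 + |(p.2 : ℝ) + w|) * (q / L)) ^ A ≤ (H / Λ) ^ A := pow_le_pow_left₀ (by positivity) e1 A
          calc ((1 + |(p.2 : ℝ) + w|) * (q / L)) ^ A * Λ ^ A ≤ (H / Λ) ^ A * Λ ^ A :=
                mul_le_mul_of_nonneg_right e3 (by positivity)
            _ = (H : ℝ) ^ A := by
                rw [← mul_pow]
                congr 1
                field_simp
            _ = (H : ℝ) ^ 2 * (H : ℝ) ^ (A - 2) := by
                rw [← pow_add]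
                congr 1
                omega
        have e4 : X ^ 7 ≤ Λ ^ A := by
          rw [hΛ, ← Real.rpow_natCast, ← Real.rpow_natCast, ← Real.rpow_mul hX0.le]
          apply Real.rpow_le_rpow_of_exponent_le hX
          push_cast
          linarith
        have e5 : (H : ℝ) ^ 2 / Λ ^ A ≤ 16 / X := by
          rw [div_le_div_iff₀ (by positivity) hX0]
          have e6 : (H : ℝ) ^ 2 ≤ (4 * X ^ 3) ^ 2 := pow_le_pow_left₀ hH0.le hHX 2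
          calc (H : ℝ) ^ 2 * X ≤ (4 * X ^ 3) ^ 2 * X := mul_le_mul_of_nonneg_right e6 hX0.le
            _ = 16 * X ^ 7 := by ring
            _ ≤ 16 * Λ ^ A := by linarith
        calc L * (C3 * (((1 + |(p.2 : ℝ) + w|) * (q / L)) ^ A / (H : ℝ) ^ (A - 2)))
            ≤ L * (C3 * (16 / X)) := by
              apply mul_le_mul_of_nonneg_left _ hL.le
              apply mul_le_mul_of_nonneg_left _ hC3
              exact e2.trans e5
          _ = 16 * C3 * (L / X) := by ring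
          _ ≤ 16 * C3 * 1 := by
              apply mul_le_mul_of_nonneg_left _ (by positivity)
              rw [div_le_one hX0]
              exact hLX
          _ = _ := by ring
      have hz : (if q = 1 then L * ‖∫ u, gf ψ ((p.2 : ℝ) + w) u‖ else 0) ≤ C4 := by
        split_ifs with hq
        · have hbig : X ^ ε < |(p.2 : ℝ)| := by
            by_contra hcon
            exact hexc ⟨hq, not_lt.1 hcon⟩
          have e1 : X ^ ε ≤ 1 + |(p.2 : ℝ) + w| := by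
            have : |(p.2 : ℝ)| ≤ |(p.2 : ℝ) + w| + w := by
              have h5 := abs_sub (((p.2 : ℝ)) + w) w
              rw [add_sub_cancel_right, abs_of_nonneg hw0] at h5
              exact h5
            linarith
          have e2 : X ≤ (1 + |(p.2 : ℝ) + w|) ^ A' := by
            calc X = X ^ (1 : ℝ) := (Real.rpow_one X).symm
              _ ≤ X ^ (ε * A') := Real.rpow_le_rpow_of_exponent_le hX heA'
              _ = (X ^ ε) ^ A' := by rw [Real.rpow_mul hX0.le, Real.rpow_natCast]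
              _ ≤ _ := pow_le_pow_left₀ (by positivity) e1 A'
          calc L * ‖∫ u, gf ψ ((p.2 : ℝ) + w) u‖ ≤ (1 + |(p.2 : ℝ) + w|) ^ A' * ‖∫ u, gf ψ ((p.2 : ℝ) + w) u‖ := by
                apply mul_le_mul_of_nonneg_right _ (norm_nonneg _)
                linarith
            _ ≤ C4 := h4 _
        · exact hC4
      have hF : ‖Fs ψ p.1 (p.2 + w) L‖ ≤ Real.sqrt L * (I1 + I2) + 16 * C3 + C4 := by
        unfold Fs
        linarith
      have hs4 : (Real.sqrt L * (I1 + I2)) ^ 4 ≤ 8 * L ^ 2 * (I1 ^ 4 + I2 ^ 4) := by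
        have e1 : (Real.sqrt L) ^ 4 = L ^ 2 := by
          have : (Real.sqrt L) ^ 4 = (Real.sqrt L ^ 2) ^ 2 := by ring
          rw [this, Real.sq_sqrt hL.le]
        rw [mul_pow, e1]
        calc L ^ 2 * (I1 + I2) ^ 4 ≤ L ^ 2 * (8 * (I1 ^ 4 + I2 ^ 4)) :=
              mul_le_mul_of_nonneg_left (two4 I1 I2) (by positivity)
          _ = _ := by ring
      calc ‖Fs ψ p.1 (p.2 + w) L‖ ^ 4 ≤ (Real.sqrt L * (I1 + I2) + 16 * C3 + C4) ^ 4 :=
            pow_le_pow_left₀ (norm_nonneg _) hF 4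
        _ ≤ 27 * ((Real.sqrt L * (I1 + I2)) ^ 4 + (16 * C3) ^ 4 + C4 ^ 4) :=
            three4 _ _ _
        _ ≤ 27 * (8 * L ^ 2 * (I1 ^ 4 + I2 ^ 4) + (16 * C3) ^ 4 + C4 ^ 4) := by linarith
        _ = _ := by ring
    refine (sum_le_sum hpt).trans ?_
    rw [sum_add_distrib, ← mul_sum, sum_add_distrib, sum_const, nsmul_eq_mul]
    have hcard : (S.card : ℝ) ≤ 3 * (q * T) := by
      have : (S.card : ℝ) ≤ (((univ : Finset (DirichletCharacter ℂ q)) ×ˢ Icc (-(T : ℤ)) T).card : ℝ) := by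
        exact_mod_cast card_le_card hSsub
      exact this.trans (card_pairs_le q hT)
    have hL2 : 1 ≤ L ^ 2 := one_le_pow₀ hL1
    have hc0 : 0 ≤ (16 * C3) ^ 4 + C4 ^ 4 := by positivity
    have e1 : (S.card : ℝ) * (27 * ((16 * C3) ^ 4 + C4 ^ 4)) ≤
        81 * ((16 * C3) ^ 4 + C4 ^ 4) * X ^ ε * (q * T * L ^ 2) := by
      calc (S.card : ℝ) * (27 * ((16 * C3) ^ 4 + C4 ^ 4)) ≤ (3 * (q * T)) * (27 * ((16 * C3) ^ 4 + C4 ^ 4)) := by
            gcongr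
        _ = 81 * ((16 * C3) ^ 4 + C4 ^ 4) * 1 * (q * T * 1) := by ring
        _ ≤ 81 * ((16 * C3) ^ 4 + C4 ^ 4) * X ^ ε * (q * T * L ^ 2) := by gcongr
    have e2 : 216 * L ^ 2 * (R1 ^ 4 * Mo + R2 ^ 4 * Mo) =
        216 * ((R1 ^ 4 + R2 ^ 4) * (C2 * 21)) * X ^ ε * (q * T * L ^ 2) := by
      rw [hMoe]
      ring
    have e3 : 216 * L ^ 2 * (∑ p ∈ S, (∫ y, ‖rho ψ y‖ * ‖Dn p.1 H (((p.2 : ℝ) + w) + 2 * Real.pi * y)‖) ^ 4 +
          ∑ p ∈ S, (∫ y, ‖rho (cj ψ) y‖ * ‖Dn p.1 H (((p.2 : ℝ) + w) - 2 * Real.pi * y)‖) ^ 4) ≤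
        216 * L ^ 2 * (R1 ^ 4 * Mo + R2 ^ 4 * Mo) :=
      mul_le_mul_of_nonneg_left (add_le_add hI1 hI2) (by positivity)
    have e4 : 0 ≤ (C1 * ((1 + |b| ^ 2) * |b| ^ 2) + 1) * X ^ ε * (q * T * L ^ 2) := by positivity
    calc _ ≤ 216 * ((R1 ^ 4 + R2 ^ 4) * (C2 * 21)) * X ^ ε * (q * T * L ^ 2) +
          81 * ((16 * C3) ^ 4 + C4 ^ 4) * X ^ ε * (q * T * L ^ 2) := by linarith
      _ ≤ _ := by linarith

end Pool.Agent.Helper62.M4
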