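import Pool.Agent.Helper62.M4.Prim
import Pool.Agent.Helper25.HM.K4

/-!
# M4-Red: reduction of all characters to the primitive ones, with the condition `(n, q) = 1`
-/

set_option autoImplicit false

namespace Pool.Agent.Helper62.M4

open Finset MeasureTheory
open Pool.Agent.Helper25.HM (nt norm_nt nt_add P sum_moebius_gcd)

/-- the smooth sum over the `n` coprime to `q` -/
noncomputable def Sq (ψ : ℝ → ℂ) (q : ℕ) {r : ℕ} (χ : DirichletCharacter ℂ r) (t L : ℝ) : ℂ :=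
  ∑' n : ℕ, (if n.Coprime q then χ (n : ZMod r) * gf ψ t (n / L) else 0)

lemma gf_zero {a b : ℝ} (ha : 0 < a) {ψ : ℝ → ℂ} (h : Te a b ψ) (t : ℝ) {L : ℝ} (hL : 0 < L) {n : ℕ}
    (hn : n ∉ Icc 1 ⌊b * L⌋₊) : gf ψ t (n / L) = 0 := by
  rw [mem_Icc, not_and_or, not_le, not_le] at hn
  have h0 : (n : ℝ) / L < a ∨ b < (n : ℝ) / L := by
    rcases hn with h1 | h1
    · left
      have : n = 0 := by omega
      rw [this]
      simpa using ha
    · right
      rw [lt_div_iff₀ hL]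
      exact Nat.lt_of_floor_lt h1
  unfold gf
  rw [h.eq_zero h0, zero_mul]

lemma Sq_fin {a b : ℝ} (ha : 0 < a) {ψ : ℝ → ℂ} (h : Te a b ψ) (q : ℕ) {r : ℕ} (χ : DirichletCharacter ℂ r)
    (t : ℝ) {L : ℝ} (hL : 0 < L) : Sq ψ q χ t L =
      ∑ n ∈ Icc 1 ⌊b * L⌋₊, (if n.Coprime q then χ (n : ZMod r) * gf ψ t (n / L) else 0) := by
  unfold Sq
  apply tsum_eq_sum
  intro n hn
  rw [gf_zero ha h t hL hn, mul_zero, ite_self]

lemma Sq_eq {a b : ℝ} (ha : 0 < a) {ψ : ℝ → ℂ} (h : Te a b ψ) (q : ℕ) {r : ℕ} (χ : DirichletCharacter ℂ r)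
    (t : ℝ) {L : ℝ} (hL : 0 < L) : ‖Sq ψ q χ t L‖ =
      ‖∑ n ∈ Icc 1 ⌊b * L⌋₊, ψ (n / L) * (if n.Coprime q then 1 else 0) * χ (n : ZMod r) * nt n t‖ := by
  have e0 : Sq ψ q χ t L =
      (∑ n ∈ Icc 1 ⌊b * L⌋₊, ψ (n / L) * (if n.Coprime q then 1 else 0) * χ (n : ZMod r) * nt n t) *
      Complex.exp (((-(t * Real.log L) : ℝ) : ℂ) * Complex.I) := by
    rw [Sq_fin ha h q χ t hL, sum_mul]
    refine sum_congr rfl fun n hn => ?_
    rw [mem_Icc] at hn
    have hn0 : (0 : ℝ) < n := by exact_mod_cast hn.1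
    unfold gf nt
    have e1 : Complex.exp (((t * Real.log (n / L) : ℝ) : ℂ) * Complex.I) =
        Complex.exp (Complex.I * ((t * Real.log n : ℝ) : ℂ)) * Complex.exp (((-(t * Real.log L) : ℝ) : ℂ) * Complex.I) := by
      rw [← Complex.exp_add, Real.log_div hn0.ne' hL.ne']
      congr 1
      push_cast
      ring
    rw [e1]
    split_ifs <;> ring
  rw [e0, norm_mul, Complex.norm_exp_ofReal_mul_I, mul_one]

/-- reduction to the primitive character -/
lemma Sq_le {a b : ℝ} (ha : 0 < a) {ψ : ℝ → ℂ} (h : Te a b ψ) {q r : ℕ} [NeZero q] [NeZero r] (hrq : r ∣ q)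
    (χ : DirichletCharacter ℂ r) (t : ℝ) {L : ℝ} (hL : 0 < L) :
    ‖Sq ψ q χ t L‖ ≤ ∑ d ∈ q.divisors, ‖Fs ψ χ.primitiveCharacter t (L / d)‖ := by
  have hq : q ≠ 0 := NeZero.ne q
  have hfin : ∀ d : ℕ, Summable (fun n : ℕ => if d ∣ n then (ArithmeticFunction.moebius d : ℂ) *
      (χ.primitiveCharacter (n : ZMod χ.conductor) * gf ψ t (n / L)) else 0) := by
    intro d
    apply summable_of_ne_finset_zero (s := Icc 1 ⌊b * L⌋₊)
    intro n hn
    rw [gf_zero ha h t hL hn, mul_zero, mul_zero, ite_self]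
  have e1 : Sq ψ q χ t L = ∑' n : ℕ, ∑ d ∈ q.divisors, (if d ∣ n then (ArithmeticFunction.moebius d : ℂ) *
      (χ.primitiveCharacter (n : ZMod χ.conductor) * gf ψ t (n / L)) else 0) := by
    unfold Sq
    apply tsum_congr
    intro n
    have h1 : ∑ d ∈ q.divisors, (if d ∣ n then (ArithmeticFunction.moebius d : ℂ) *
        (χ.primitiveCharacter (n : ZMod χ.conductor) * gf ψ t (n / L)) else 0) =
        ((∑ d ∈ (Nat.gcd n q).divisors, (ArithmeticFunction.moebius d : ℤ) : ℤ) : ℂ) *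
          (χ.primitiveCharacter (n : ZMod χ.conductor) * gf ψ t (n / L)) := by
      rw [← sum_filter, ← sum_mul]
      congr 1
      push_cast
      apply sum_congr _ (fun _ _ => rfl)
      ext d
      simp only [mem_filter, Nat.mem_divisors, Nat.dvd_gcd_iff]
      constructor
      · rintro ⟨⟨h1, _⟩, h3⟩
        exact ⟨⟨h3, h1⟩, Nat.gcd_ne_zero_right hq⟩
      · rintro ⟨⟨h1, h2⟩, _⟩
        exact ⟨⟨h2, hq⟩, h1⟩
    rw [h1, sum_moebius_gcd _ (Nat.gcd_pos_of_pos_right _ (Nat.pos_of_ne_zero hq))]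
    by_cases hg : Nat.gcd n q = 1
    · have hcop : n.Coprime q := hg
      rw [if_pos hg, if_pos hcop]
      have hc : IsCoprime (n : ℤ) (r : ℤ) := Nat.isCoprime_iff_coprime.2 (hcop.coprime_dvd_right hrq)
      have := χ.primitiveCharacter_apply_of_isCoprime hc
      push_cast at this ⊢
      rw [one_mul, this]
    · have hcop : ¬ n.Coprime q := hg
      rw [if_neg hg, if_neg hcop]
      push_cast
      rw [zero_mul]
  have e2 : ∀ d ∈ q.divisors, ∑' n : ℕ, (if d ∣ n then (ArithmeticFunction.moebius d : ℂ) *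
      (χ.primitiveCharacter (n : ZMod χ.conductor) * gf ψ t (n / L)) else 0) =
      (ArithmeticFunction.moebius d : ℂ) * (χ.primitiveCharacter (d : ZMod χ.conductor) *
        Fs ψ χ.primitiveCharacter t (L / d)) := by
    intro d hd
    have hd0 : d ≠ 0 := by
      rintro rfl
      simp at hd
    have hdr : (d : ℝ) ≠ 0 := by exact_mod_cast hd0
    have hinj : Function.Injective (fun m : ℕ => d * m) := fun x y hxy => Nat.eq_of_mul_eq_mul_left (Nat.pos_of_ne_zero hd0) hxy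
    rw [← hinj.tsum_eq]
    · unfold Fs
      rw [← tsum_mul_left, ← tsum_mul_left]
      apply tsum_congr
      intro m
      rw [if_pos (dvd_mul_right d m), Nat.cast_mul, map_mul]
      have : ((d * m : ℕ) : ℝ) / L = (m : ℝ) / (L / d) := by
        push_cast
        field_simp
      rw [this]
      ring
    · intro n hn
      rw [Function.mem_support] at hn
      by_cases hdn : d ∣ n
      · obtain ⟨m, hm⟩ := hdn
        exact ⟨m, hm.symm⟩
      · rw [if_neg hdn] at hn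
        exact absurd rfl hn
  rw [e1, Summable.tsum_finsetSum (fun d _ => hfin d), sum_congr rfl e2]
  refine (norm_sum_le _ _).trans (sum_le_sum fun d _ => ?_)
  rw [norm_mul, norm_mul]
  have h1 : ‖(ArithmeticFunction.moebius d : ℂ)‖ ≤ 1 := by
    rw [Complex.norm_intCast]
    exact_mod_cast ArithmeticFunction.abs_moebius_le_one
  have h2 : ‖χ.primitiveCharacter (d : ZMod χ.conductor)‖ ≤ 1 := DirichletCharacter.norm_le_one _ _
  calc ‖(ArithmeticFunction.moebius d : ℂ)‖ * (‖χ.primitiveCharacter (d : ZMod χ.conductor)‖ *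
        ‖Fs ψ χ.primitiveCharacter t (L / d)‖) ≤ 1 * (1 * ‖Fs ψ χ.primitiveCharacter t (L / d)‖) := by gcongr
    _ = _ := by ring

open Classical in
/-- regrouping of all characters by primitive characters -/
theorem regroup62 {r : ℕ} [NeZero r] (F : (q : ℕ) → DirichletCharacter ℂ q → ℝ) (hF : ∀ q χ, 0 ≤ F q χ) :
    ∑ χ : DirichletCharacter ℂ r, F χ.conductor χ.primitiveCharacter ≤
      ∑ q ∈ r.divisors, ∑ χ ∈ (Finset.univ : Finset (DirichletCharacter ℂ q)).filter (fun χ => χ.IsPrimitive), F q χ := by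
  have hr0 : r ≠ 0 := NeZero.ne r
  rw [Finset.sum_sigma']
  set g : DirichletCharacter ℂ r → (Σ q : ℕ, DirichletCharacter ℂ q) := fun χ => ⟨χ.conductor, χ.primitiveCharacter⟩ with hg
  have hinj : Set.InjOn g ((Finset.univ : Finset (DirichletCharacter ℂ r)) : Set (DirichletCharacter ℂ r)) := by
    intro χ _ ψ _ h
    have h1 : ∀ (p : Σ q : ℕ, DirichletCharacter ℂ q) (hd : p.1 ∣ r) (χ : DirichletCharacter ℂ r),
        g χ = p → DirichletCharacter.changeLevel hd p.2 = χ := by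
      rintro p hd χ rfl
      exact χ.changeLevel_primitiveCharacter
    have h2 := h1 (g ψ) ψ.conductor_dvd_level χ h
    have h3 := h1 (g ψ) ψ.conductor_dvd_level ψ rfl
    exact h2.symm.trans h3
  have h4 : ∑ χ : DirichletCharacter ℂ r, F χ.conductor χ.primitiveCharacter =
      ∑ p ∈ ((Finset.univ : Finset (DirichletCharacter ℂ r))).image g, F p.1 p.2 := by
    rw [Finset.sum_image hinj]
  rw [h4]
  refine Finset.sum_le_sum_of_subset_of_nonneg ?_ fun p _ _ => hF _ _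
  intro p hp
  obtain ⟨χ, hχ, rfl⟩ := Finset.mem_image.1 hp
  simp only [hg, Finset.mem_sigma, Finset.mem_filter, Nat.mem_divisors, Finset.mem_univ, true_and]
  exact ⟨⟨χ.conductor_dvd_level, hr0⟩, χ.primitiveCharacter_isPrimitive⟩

/-- Hölder for sums -/
lemma sum_pow4 {ι : Type*} (s : Finset ι) (f : ι → ℝ) :
    (∑ i ∈ s, f i) ^ 4 ≤ (s.card : ℝ) ^ 3 * ∑ i ∈ s, f i ^ 4 := by
  have h1 := sq_sum_le_card_mul_sum_sq (s := s) (f := f)
  have h2 := sq_sum_le_card_mul_sum_sq (s := s) (f := fun i => f i ^ 2)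
  have h3 : 0 ≤ (∑ i ∈ s, f i) ^ 2 := sq_nonneg _
  have h4 : (0 : ℝ) ≤ (s.card : ℝ) := Nat.cast_nonneg _
  calc (∑ i ∈ s, f i) ^ 4 = ((∑ i ∈ s, f i) ^ 2) ^ 2 := by ring
    _ ≤ ((s.card : ℝ) * ∑ i ∈ s, f i ^ 2) ^ 2 := pow_le_pow_left₀ h3 h1 2
    _ = (s.card : ℝ) ^ 2 * (∑ i ∈ s, f i ^ 2) ^ 2 := by ring
    _ ≤ (s.card : ℝ) ^ 2 * ((s.card : ℝ) * ∑ i ∈ s, (f i ^ 2) ^ 2) := mul_le_mul_of_nonneg_left h2 (by positivity)
    _ = (s.card : ℝ) ^ 3 * ∑ i ∈ s, f i ^ 4 := by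
        have : ∀ i, (f i ^ 2) ^ 2 = f i ^ 4 := fun i => by ring
        simp only [this]
        ring

end Pool.Agent.Helper62.M4
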