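import Pool.Agent.Helper62.M4.Mel
import Pool.Agent.Helper62.M4.Pois
import Pool.Agent.Helper25.HM.K2

/-!
# M4-Refl: the reflection inequality for primitive characters
-/

set_option autoImplicit false

namespace Pool.Agent.Helper62.M4

open Complex MeasureTheory Filter Topology
open scoped FourierTransform ContDiff
open Pool.Agent.Helper25.HM (nt norm_nt)

/-- the dual sum -/
noncomputable def Dn {q : ℕ} (χ : DirichletCharacter ℂ q) (H : ℕ) (ν : ℝ) : ℂ :=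
  ∑ m ∈ Finset.Icc 1 H, χ (m : ZMod q) * (((m : ℝ) ^ (-(1 / 2) : ℝ) : ℝ) : ℂ) * nt m ν

lemma nt_cont62 (n : ℕ) : Continuous (fun t : ℝ => nt n t) := by
  unfold nt
  fun_prop

lemma Dn_cont {q : ℕ} (χ : DirichletCharacter ℂ q) (H : ℕ) : Continuous (Dn χ H) := by
  unfold Dn
  apply continuous_finsetSum
  intro m _
  exact continuous_const.mul (nt_cont62 m)

lemma Dn_le {q : ℕ} (χ : DirichletCharacter ℂ q) (H : ℕ) (ν : ℝ) : ‖Dn χ H ν‖ ≤ H := by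
  unfold Dn
  refine (norm_sum_le _ _).trans ?_
  have h1 : ∀ m ∈ Finset.Icc 1 H, ‖χ (m : ZMod q) * (((m : ℝ) ^ (-(1 / 2) : ℝ) : ℝ) : ℂ) * nt m ν‖ ≤ 1 := by
    intro m hm
    rw [Finset.mem_Icc] at hm
    have hm1 : (1 : ℝ) ≤ m := by exact_mod_cast hm.1
    rw [norm_mul, norm_mul, norm_nt, mul_one, Complex.norm_real, Real.norm_eq_abs,
      abs_of_nonneg (by positivity)]
    have h2 : (m : ℝ) ^ (-(1 / 2) : ℝ) ≤ 1 := Real.rpow_le_one_of_one_le_of_nonpos hm1 (by norm_num)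
    exact mul_le_one₀ (χ.norm_le_one _) (by positivity) h2
  refine (Finset.sum_le_card_nsmul _ _ _ h1).trans ?_
  simp

/-- the complex conjugate of a test function -/
noncomputable def cj (ψ : ℝ → ℂ) (u : ℝ) : ℂ := (starRingEnd ℂ) (ψ u)

lemma fourier_neg (ψ : ℝ → ℂ) (τ ξ : ℝ) : 𝓕 (gf ψ τ) (-ξ) = (starRingEnd ℂ) (𝓕 (gf (cj ψ) (-τ)) ξ) := by
  rw [Real.fourier_eq', Real.fourier_eq', ← integral_conj]
  apply integral_congr_ae
  filter_upwards with u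
  simp only [smul_eq_mul, map_mul]
  unfold gf cj
  rw [map_mul, Complex.conj_conj]
  have h1 : (starRingEnd ℂ) (cexp (((-τ * Real.log u : ℝ) : ℂ) * I)) = cexp (((τ * Real.log u : ℝ) : ℂ) * I) := by
    rw [← Complex.exp_conj, map_mul, Complex.conj_ofReal, Complex.conj_I]
    congr 1
    push_cast
    ring
  have h2 : (starRingEnd ℂ) (cexp (((-2 * Real.pi * inner ℝ u ξ : ℝ) : ℂ) * I)) =
      cexp (((-2 * Real.pi * inner ℝ u (-ξ) : ℝ) : ℂ) * I) := by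
    rw [← Complex.exp_conj, map_mul, Complex.conj_ofReal, Complex.conj_I]
    congr 1
    rw [inner_neg_right]
    push_cast
    ring
  rw [h1, h2]

lemma conj_inv {q : ℕ} (χ : DirichletCharacter ℂ q) (x : ZMod q) : (starRingEnd ℂ) (χ⁻¹ x) = χ x := by
  rw [← MulChar.star_eq_inv, MulChar.star_apply]
  exact star_star _

/-- one half of the dual sum after the separation -/
lemma half {a b : ℝ} (ha : 0 < a) {ψ : ℝ → ℂ} (h : Te a b ψ) (τ : ℝ) {q : ℕ} (χ : DirichletCharacter ℂ q)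
    {s : ℝ} (hs : 0 < s) (H : ℕ) :
    ‖∑ m ∈ Finset.Icc 1 H, χ⁻¹ (m : ZMod q) * 𝓕 (gf ψ τ) (m * s)‖ ≤
      s ^ (-(1 / 2) : ℝ) * ∫ y, ‖rho ψ y‖ * ‖Dn χ H (τ + 2 * Real.pi * y)‖ := by
  have hkc : Continuous (kz τ) := by
    unfold kz
    fun_prop
  have hkapc : Continuous kap := by
    unfold kap
    have hpi := Real.pi_pos
    have hI : (1 / (2 * Real.pi * I) : ℂ) ≠ 0 := by
      have h1 : (Real.pi : ℂ) ≠ 0 := by exact_mod_cast hpi.ne'
      apply one_div_ne_zero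
      simp [h1]
    apply Continuous.mul
    · exact Continuous.const_cpow (by fun_prop) (Or.inl hI)
    · rw [continuous_iff_continuousAt]
      intro y
      have h1 : DifferentiableAt ℂ Gamma ((1 / 2 : ℂ) + (y : ℂ) * I) := by
        apply Complex.differentiableAt_Gamma
        intro m hm
        have : ((1 / 2 : ℂ) + (y : ℂ) * I).re = (-(m : ℂ)).re := by rw [hm]
        simp at this
        have hm0 : (0 : ℝ) ≤ m := Nat.cast_nonneg m
        linarith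
      have h2 : ContinuousAt (fun y : ℝ => (1 / 2 : ℂ) + (y : ℂ) * I) y := by fun_prop
      exact h1.continuousAt.comp (f := fun y : ℝ => (1 / 2 : ℂ) + (y : ℂ) * I) h2
  have hint : ∀ m ∈ Finset.Icc 1 H, Integrable (fun y => χ⁻¹ (m : ZMod q) *
      (rho ψ y * (kap (τ + 2 * Real.pi * y) * cexp (-(kz τ y) * (Real.log (m * s) : ℂ))))) := by
    intro m hm
    rw [Finset.mem_Icc] at hm
    have hm0 : (0 : ℝ) < m := by exact_mod_cast hm.1
    apply Integrable.const_mul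
    apply (rho_int ha h).mul_bdd (c := (m * s) ^ (-(1 / 2) : ℝ))
    · apply Continuous.aestronglyMeasurable
      exact (hkapc.comp (by fun_prop)).mul (by fun_prop)
    · filter_upwards with y
      rw [norm_mul, Complex.norm_exp]
      have e1 : (-(kz τ y) * (Real.log (m * s) : ℂ)).re = -(1 / 2) * Real.log (m * s) := by
        rw [Complex.re_mul_ofReal, Complex.neg_re]
        simp [kz]
      rw [e1]
      have e2 : Real.exp (-(1 / 2) * Real.log (m * s)) = (m * s) ^ (-(1 / 2) : ℝ) := by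
        rw [Real.rpow_def_of_pos (by positivity), mul_comm]
      rw [e2]
      exact mul_le_of_le_one_left (by positivity) (norm_kap _)
  have e1 : ∑ m ∈ Finset.Icc 1 H, χ⁻¹ (m : ZMod q) * 𝓕 (gf ψ τ) (m * s) =
      ∫ y, ∑ m ∈ Finset.Icc 1 H, χ⁻¹ (m : ZMod q) *
        (rho ψ y * (kap (τ + 2 * Real.pi * y) * cexp (-(kz τ y) * (Real.log (m * s) : ℂ)))) := by
    rw [integral_finsetSum _ hint]
    refine Finset.sum_congr rfl fun m hm => ?_
    rw [Finset.mem_Icc] at hm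
    have hm0 : (0 : ℝ) < m := by exact_mod_cast hm.1
    rw [integral_const_mul, sep ha h τ (by positivity)]
  rw [e1, ← integral_const_mul]
  apply norm_integral_le_of_norm_le
  · have h1 : Integrable (fun y => ‖rho ψ y‖ * ‖Dn χ H (τ + 2 * Real.pi * y)‖) := by
      apply (rho_int ha h).norm.mul_bdd (c := (H : ℝ))
      · exact ((Dn_cont χ H).comp (by fun_prop)).norm.aestronglyMeasurable
      · filter_upwards with y
        rw [norm_norm]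
        exact Dn_le χ H _
    exact h1.const_mul _
  · filter_upwards with y
    have e2 : ∑ m ∈ Finset.Icc 1 H, χ⁻¹ (m : ZMod q) *
        (rho ψ y * (kap (τ + 2 * Real.pi * y) * cexp (-(kz τ y) * (Real.log (m * s) : ℂ)))) =
        (rho ψ y * kap (τ + 2 * Real.pi * y) * cexp (-(kz τ y) * (Real.log s : ℂ))) *
        (starRingEnd ℂ) (Dn χ H (τ + 2 * Real.pi * y)) := by
      unfold Dn
      rw [map_sum, Finset.mul_sum]
      refine Finset.sum_congr rfl fun m hm => ?_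
      rw [Finset.mem_Icc] at hm
      have hm0 : (0 : ℝ) < m := by exact_mod_cast hm.1
      have e3 : cexp (-(kz τ y) * (Real.log (m * s) : ℂ)) =
          cexp (-(kz τ y) * (Real.log s : ℂ)) * cexp (-(kz τ y) * (Real.log m : ℂ)) := by
        rw [← Complex.exp_add, Real.log_mul hm0.ne' hs.ne']
        congr 1
        push_cast
        ring
      have e4 : cexp (-(kz τ y) * (Real.log m : ℂ)) = (((m : ℝ) ^ (-(1 / 2) : ℝ) : ℝ) : ℂ) *
          (starRingEnd ℂ) (nt m (τ + 2 * Real.pi * y)) := by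
        unfold nt
        rw [← Complex.exp_conj, Real.rpow_def_of_pos hm0, Complex.ofReal_exp, ← Complex.exp_add]
        congr 1
        rw [map_mul, Complex.conj_ofReal, Complex.conj_I]
        unfold kz
        push_cast
        ring
      have e5 : (starRingEnd ℂ) (χ (m : ZMod q)) = χ⁻¹ (m : ZMod q) := by
        rw [← conj_inv χ, Complex.conj_conj]
      rw [e3, e4, map_mul, map_mul, Complex.conj_ofReal, e5]
      ring
    rw [e2, norm_mul, norm_mul, norm_mul, Complex.norm_exp, RCLike.norm_conj]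
    have e6 : (-(kz τ y) * (Real.log s : ℂ)).re = -(1 / 2) * Real.log s := by
      rw [Complex.re_mul_ofReal, Complex.neg_re]
      simp [kz]
    have e7 : Real.exp (-(1 / 2) * Real.log s) = s ^ (-(1 / 2) : ℝ) := by
      rw [Real.rpow_def_of_pos hs, mul_comm]
    rw [e6, e7]
    have h1 := norm_kap (τ + 2 * Real.pi * y)
    calc ‖rho ψ y‖ * ‖kap (τ + 2 * Real.pi * y)‖ * s ^ (-(1 / 2) : ℝ) * ‖Dn χ H (τ + 2 * Real.pi * y)‖
        ≤ ‖rho ψ y‖ * 1 * s ^ (-(1 / 2) : ℝ) * ‖Dn χ H (τ + 2 * Real.pi * y)‖ := by gcongr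
      _ = _ := by ring

/-- a half line of the dual sum -/
lemma tail_nat {g : ℕ → ℂ} {B : ℝ} (hB : 0 ≤ B) {A : ℕ} (hA : 2 ≤ A) {H : ℕ} (hH : 1 ≤ H)
    (hg : ∀ n : ℕ, 1 ≤ n → ‖g n‖ ≤ B / (n : ℝ) ^ A) :
    Summable (fun n : ℕ => g (n + 1)) ∧
    ‖∑' n : ℕ, g (n + 1)‖ ≤ ‖∑ m ∈ Finset.Icc 1 H, g m‖ + B / (H : ℝ) ^ (A - 2) * ∑' n : ℕ, 1 / ((n : ℝ) + 1) ^ 2 := by
  have h2 : Summable (fun n : ℕ => 1 / ((n : ℝ) + 1) ^ 2) := by
    have := (Real.summable_one_div_nat_pow.mpr (show 1 < 2 by norm_num))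
    have h3 := (summable_nat_add_iff 1).2 this
    refine h3.congr fun n => ?_
    push_cast
    rfl
  have hb : ∀ n : ℕ, ‖g (n + 1)‖ ≤ B * (1 / ((n : ℝ) + 1) ^ 2) := by
    intro n
    refine (hg (n + 1) (by omega)).trans ?_
    push_cast
    have h4 : ((n : ℝ) + 1) ^ 2 ≤ ((n : ℝ) + 1) ^ A := pow_le_pow_right₀ (by linarith [(Nat.cast_nonneg n : (0 : ℝ) ≤ n)]) hA
    rw [div_eq_mul_one_div]
    apply mul_le_mul_of_nonneg_left _ hB
    exact one_div_le_one_div_of_le (by positivity) h4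
  have hs : Summable (fun n : ℕ => g (n + 1)) := Summable.of_norm_bounded (h2.mul_left B) hb
  refine ⟨hs, ?_⟩
  have hH0 : (0 : ℝ) < H := by exact_mod_cast hH
  have e1 := hs.sum_add_tsum_nat_add H
  have e2 : ∑ n ∈ Finset.range H, g (n + 1) = ∑ m ∈ Finset.Icc 1 H, g m := by
    rw [Finset.range_eq_Ico, Finset.sum_Ico_add' (fun n => g n) 0 H 1]
    apply Finset.sum_congr _ fun _ _ => rfl
    ext n
    simp only [Finset.mem_Ico, Finset.mem_Icc]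
    omega
  rw [← e1, e2]
  refine (norm_add_le _ _).trans ?_
  have hb2 : ∀ n : ℕ, ‖g (n + H + 1)‖ ≤ B / (H : ℝ) ^ (A - 2) * (1 / ((n : ℝ) + 1) ^ 2) := by
    intro n
    refine (hg (n + H + 1) (by omega)).trans ?_
    push_cast
    have hn : (0 : ℝ) ≤ n := Nat.cast_nonneg n
    have h4 : (H : ℝ) ^ (A - 2) * ((n : ℝ) + 1) ^ 2 ≤ ((n : ℝ) + H + 1) ^ A := by
      have : A = (A - 2) + 2 := by omega
      calc (H : ℝ) ^ (A - 2) * ((n : ℝ) + 1) ^ 2 ≤ ((n : ℝ) + H + 1) ^ (A - 2) * ((n : ℝ) + H + 1) ^ 2 := by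
            gcongr
            · linarith
            · linarith
        _ = ((n : ℝ) + H + 1) ^ A := by rw [← pow_add, ← this]
    rw [div_mul_div_comm, mul_one]
    exact div_le_div_of_nonneg_left hB (by positivity) h4
  have hs2 : Summable (fun n : ℕ => ‖g (n + H + 1)‖) :=
    Summable.of_nonneg_of_le (fun _ => norm_nonneg _) hb2 (h2.mul_left _)
  have e3 : ‖∑' n : ℕ, g (n + H + 1)‖ ≤ B / (H : ℝ) ^ (A - 2) * ∑' n : ℕ, 1 / ((n : ℝ) + 1) ^ 2 := by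
    refine (norm_tsum_le_tsum_norm hs2).trans ?_
    rw [← tsum_mul_left]
    exact hs2.tsum_le_tsum hb2 (h2.mul_left _)
  linarith

/-- The reflection inequality. -/
theorem refl {a b : ℝ} (ha : 0 < a) {ψ : ℝ → ℂ} (h : Te a b ψ) {A : ℕ} (hA : 2 ≤ A) : ∃ C : ℝ, 0 ≤ C ∧
    ∀ {q : ℕ} [NeZero q] {χ : DirichletCharacter ℂ q}, χ.IsPrimitive → ∀ {L : ℝ}, 0 < L → ∀ (τ : ℝ) {H : ℕ}, 1 ≤ H →
    ‖∑' n : ℕ, χ (n : ZMod q) * gf ψ τ (n / L)‖ ≤
      Real.sqrt L * ((∫ y, ‖rho ψ y‖ * ‖Dn χ H (τ + 2 * Real.pi * y)‖) +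
        ∫ y, ‖rho (cj ψ) y‖ * ‖Dn χ H (τ - 2 * Real.pi * y)‖) +
      L * (C * (((1 + |τ|) * (q / L)) ^ A / (H : ℝ) ^ (A - 2))) +
      (if q = 1 then L * ‖∫ u, gf ψ τ u‖ else 0) := by
  obtain ⟨C, hC, hdec⟩ := decay ha A ψ h
  have hcj : Te a b (cj ψ) := h.conj'
  obtain ⟨Z, hZ⟩ : ∃ Z : ℝ, Z = ∑' n : ℕ, 1 / ((n : ℝ) + 1) ^ 2 := ⟨_, rfl⟩
  have hZ0 : 0 ≤ Z := by
    rw [hZ]
    exact tsum_nonneg fun n => by positivity
  refine ⟨2 * (C * Z), by positivity, fun {q} _ {χ} hχ {L} hL τ {H} hH => ?_⟩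
  have hq0 : (0 : ℝ) < q := by exact_mod_cast Nat.pos_of_ne_zero (NeZero.ne q)
  have hq1 : (1 : ℝ) ≤ q := by exact_mod_cast Nat.one_le_iff_ne_zero.2 (NeZero.ne q)
  obtain ⟨s, hs⟩ : ∃ s : ℝ, s = L / q := ⟨_, rfl⟩
  have hs0 : 0 < s := by rw [hs]; positivity
  have hG := h.gf' ha τ
  rw [pois ha hG hχ hL, norm_mul, norm_mul, Pool.Agent.Helper25.HM.norm_gaussSum χ hχ, Complex.norm_real,
    Real.norm_eq_abs, abs_of_pos (by positivity : 0 < L / (q : ℝ)), ← hs]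
  -- the bound for single terms
  have hterm : ∀ ξ : ℝ, 0 < |ξ| → ‖𝓕 (gf ψ τ) ξ‖ ≤ C * (1 + |τ|) ^ A / |ξ| ^ A := by
    intro ξ hξ
    rw [le_div_iff₀ (by positivity), mul_comm]
    exact hdec τ ξ
  obtain ⟨B, hB⟩ : ∃ B : ℝ, B = C * (1 + |τ|) ^ A / s ^ A := ⟨_, rfl⟩
  have hB0 : 0 ≤ B := by rw [hB]; positivity
  have hterm2 : ∀ n : ℕ, 1 ≤ n → ∀ ξ : ℝ, |ξ| = n * s → ‖𝓕 (gf ψ τ) ξ‖ ≤ B / (n : ℝ) ^ A := by
    intro n hn ξ hξ
    have hn0 : (0 : ℝ) < n := by exact_mod_cast hn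
    refine (hterm ξ (by rw [hξ]; positivity)).trans (le_of_eq ?_)
    rw [hξ, hB, mul_pow]
    field_simp
  obtain ⟨g1, hg1⟩ : ∃ g1 : ℕ → ℂ, g1 = fun n : ℕ => χ⁻¹ (n : ZMod q) * 𝓕 (gf ψ τ) ((n : ℝ) * s) := ⟨_, rfl⟩
  obtain ⟨g2, hg2⟩ : ∃ g2 : ℕ → ℂ, g2 = fun n : ℕ => χ⁻¹ (-(n : ZMod q)) * 𝓕 (gf ψ τ) (-((n : ℝ) * s)) := ⟨_, rfl⟩
  have hb1 : ∀ n : ℕ, 1 ≤ n → ‖g1 n‖ ≤ B / (n : ℝ) ^ A := by
    intro n hn
    rw [hg1]
    simp only
    rw [norm_mul]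
    have hn0 : (0 : ℝ) < n := by exact_mod_cast hn
    exact (mul_le_of_le_one_left (norm_nonneg _) (χ⁻¹.norm_le_one _)).trans
      (hterm2 n hn _ (by rw [abs_of_pos (by positivity)]))
  have hb2 : ∀ n : ℕ, 1 ≤ n → ‖g2 n‖ ≤ B / (n : ℝ) ^ A := by
    intro n hn
    rw [hg2]
    simp only
    rw [norm_mul]
    have hn0 : (0 : ℝ) < n := by exact_mod_cast hn
    exact (mul_le_of_le_one_left (norm_nonneg _) (χ⁻¹.norm_le_one _)).trans
      (hterm2 n hn _ (by rw [abs_neg, abs_of_pos (by positivity)]))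
  obtain ⟨s1, t1⟩ := tail_nat hB0 hA hH hb1
  obtain ⟨s2, t2⟩ := tail_nat hB0 hA hH hb2
  rw [← hZ] at t1 t2
  have hsplit : ∑' m : ℤ, χ⁻¹ (m : ZMod q) * 𝓕 (gf ψ τ) (m * s) =
      χ⁻¹ (0 : ZMod q) * 𝓕 (gf ψ τ) 0 + ∑' n : ℕ, g1 (n + 1) + ∑' n : ℕ, g2 (n + 1) := by
    obtain ⟨F, hF⟩ : ∃ F : ℤ → ℂ, F = fun m : ℤ => χ⁻¹ (m : ZMod q) * 𝓕 (gf ψ τ) ((m : ℝ) * s) := ⟨_, rfl⟩
    have f1 : ∀ n : ℕ, F ((n + 1 : ℕ) : ℤ) = g1 (n + 1) := by
      intro n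
      rw [hg1, hF]
      simp only
      push_cast
      rfl
    have f2 : ∀ n : ℕ, F (-((n : ℤ) + 1)) = g2 (n + 1) := by
      intro n
      rw [hg2, hF]
      simp only
      push_cast
      congr 2
      ring
    have f0 : F 0 = χ⁻¹ (0 : ZMod q) * 𝓕 (gf ψ τ) 0 := by
      rw [hF]
      simp
    have c1 : Summable (fun n : ℕ => F (n : ℤ)) :=
      (summable_nat_add_iff 1).1 (s1.congr fun n => (f1 n).symm)
    have c3 : Summable (fun n : ℕ => F (-((n : ℤ) + 1))) := s2.congr fun n => (f2 n).symm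
    have q1 : ∑' m : ℤ, F m = ∑' n : ℕ, F (n : ℤ) + ∑' n : ℕ, F (-((n : ℤ) + 1)) := tsum_of_nat_of_neg_add_one c1 c3
    have q2 : ∑' n : ℕ, F (n : ℤ) = F 0 + ∑' n : ℕ, F ((n + 1 : ℕ) : ℤ) := by
      have := c1.tsum_eq_zero_add
      exact this
    have q3 : ∑' m : ℤ, χ⁻¹ (m : ZMod q) * 𝓕 (gf ψ τ) (m * s) = ∑' m : ℤ, F m := by rw [hF]
    rw [q3, q1, q2, f0, tsum_congr f1, tsum_congr f2]
  have hneg : ∑ m ∈ Finset.Icc 1 H, g2 m = χ⁻¹ (-1) *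
      (starRingEnd ℂ) (∑ m ∈ Finset.Icc 1 H, χ⁻¹⁻¹ (m : ZMod q) * 𝓕 (gf (cj ψ) (-τ)) (m * s)) := by
    rw [map_sum, Finset.mul_sum]
    refine Finset.sum_congr rfl fun m _ => ?_
    rw [hg2]
    simp only
    rw [fourier_neg, map_mul, conj_inv, ← mul_assoc]
    congr 1
    rw [← map_mul]
    congr 1
    ring
  have hD2 : ∀ y : ℝ, ‖Dn χ⁻¹ H (-τ + 2 * Real.pi * y)‖ = ‖Dn χ H (τ - 2 * Real.pi * y)‖ := by
    intro y
    rw [← RCLike.norm_conj (Dn χ⁻¹ H (-τ + 2 * Real.pi * y))]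
    congr 1
    unfold Dn
    rw [map_sum]
    refine Finset.sum_congr rfl fun m _ => ?_
    rw [map_mul, map_mul, conj_inv, Complex.conj_ofReal]
    congr 1
    unfold nt
    rw [← Complex.exp_conj, map_mul, Complex.conj_ofReal, Complex.conj_I]
    congr 1
    push_cast
    ring
  have k1 : ‖∑ m ∈ Finset.Icc 1 H, g1 m‖ ≤ s ^ (-(1 / 2) : ℝ) * ∫ y, ‖rho ψ y‖ * ‖Dn χ H (τ + 2 * Real.pi * y)‖ := by
    rw [hg1]
    exact half ha h τ χ hs0 H
  have k2 : ‖∑ m ∈ Finset.Icc 1 H, g2 m‖ ≤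
      s ^ (-(1 / 2) : ℝ) * ∫ y, ‖rho (cj ψ) y‖ * ‖Dn χ H (τ - 2 * Real.pi * y)‖ := by
    rw [hneg, norm_mul, RCLike.norm_conj]
    refine (mul_le_of_le_one_left (norm_nonneg _) (χ⁻¹.norm_le_one _)).trans ?_
    refine (half ha hcj (-τ) χ⁻¹ hs0 H).trans (le_of_eq ?_)
    simp only [hD2]
  have k0 : ‖χ⁻¹ (0 : ZMod q) * 𝓕 (gf ψ τ) 0‖ ≤ if q = 1 then ‖∫ u, gf ψ τ u‖ else 0 := by
    split_ifs with hq
    · rw [norm_mul]
      refine (mul_le_of_le_one_left (norm_nonneg _) (χ⁻¹.norm_le_one _)).trans (le_of_eq ?_)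
      rw [Real.fourier_eq']
      congr 1
      apply integral_congr_ae
      filter_upwards with u
      simp
    · have : ¬ IsUnit (0 : ZMod q) := by
        rw [isUnit_zero_iff]
        intro h0
        have : Subsingleton (ZMod q) := subsingleton_of_zero_eq_one h0
        exact hq (ZMod.subsingleton_iff.1 this)
      rw [MulChar.map_nonunit _ this, zero_mul, norm_zero]
  rw [hsplit]
  obtain ⟨R, hR⟩ : ∃ R : ℝ, R = B / (H : ℝ) ^ (A - 2) * Z := ⟨_, rfl⟩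
  rw [← hR] at t1 t2
  have hR0 : 0 ≤ R := by rw [hR]; positivity
  obtain ⟨I1, hI1⟩ : ∃ I1 : ℝ, I1 = ∫ y, ‖rho ψ y‖ * ‖Dn χ H (τ + 2 * Real.pi * y)‖ := ⟨_, rfl⟩
  obtain ⟨I2, hI2⟩ : ∃ I2 : ℝ, I2 = ∫ y, ‖rho (cj ψ) y‖ * ‖Dn χ H (τ - 2 * Real.pi * y)‖ := ⟨_, rfl⟩
  rw [← hI1] at k1 ⊢
  rw [← hI2] at k2 ⊢
  have htot : ‖χ⁻¹ (0 : ZMod q) * 𝓕 (gf ψ τ) 0 + ∑' n : ℕ, g1 (n + 1) + ∑' n : ℕ, g2 (n + 1)‖ ≤
      (if q = 1 then ‖∫ u, gf ψ τ u‖ else 0) + s ^ (-(1 / 2) : ℝ) * (I1 + I2) + 2 * R := by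
    refine (norm_add_le _ _).trans ?_
    have := norm_add_le (χ⁻¹ (0 : ZMod q) * 𝓕 (gf ψ τ) 0) (∑' n : ℕ, g1 (n + 1))
    linarith
  have hsq : 0 < Real.sqrt q := Real.sqrt_pos.2 hq0
  have hsqq : Real.sqrt q * Real.sqrt q = q := Real.mul_self_sqrt hq0.le
  have e1 : Real.sqrt q * s * s ^ (-(1 / 2) : ℝ) = Real.sqrt L := by
    have h1 : s * s ^ (-(1 / 2) : ℝ) = Real.sqrt s := by
      rw [Real.sqrt_eq_rpow]
      nth_rewrite 1 [← Real.rpow_one s]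
      rw [← Real.rpow_add hs0]
      norm_num
    rw [mul_assoc, h1, ← Real.sqrt_mul hq0.le, hs]
    congr 1
    field_simp
  have e2 : Real.sqrt q * s ≤ L := by
    have h1 : Real.sqrt q ≤ q := by
      rw [Real.sqrt_le_left hq0.le]
      nlinarith
    calc Real.sqrt q * s ≤ q * s := mul_le_mul_of_nonneg_right h1 hs0.le
      _ = L := by rw [hs]; field_simp
  have e3 : 2 * R = 2 * (C * Z) * (((1 + |τ|) * (q / L)) ^ A / (H : ℝ) ^ (A - 2)) := by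
    rw [hR, hB, hs, mul_pow]
    have : (L / (q : ℝ)) ^ A = 1 / ((q : ℝ) / L) ^ A := by
      rw [div_pow, div_pow, one_div_div]
    rw [this]
    field_simp
  have hsc : 0 ≤ Real.sqrt q * s := by positivity
  calc Real.sqrt q * s * ‖χ⁻¹ (0 : ZMod q) * 𝓕 (gf ψ τ) 0 + ∑' n : ℕ, g1 (n + 1) + ∑' n : ℕ, g2 (n + 1)‖
      ≤ Real.sqrt q * s * ((if q = 1 then ‖∫ u, gf ψ τ u‖ else 0) + s ^ (-(1 / 2) : ℝ) * (I1 + I2) + 2 * R) :=
        mul_le_mul_of_nonneg_left htot hsc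
    _ = (Real.sqrt q * s * s ^ (-(1 / 2) : ℝ)) * (I1 + I2) + Real.sqrt q * s * (2 * R) +
        Real.sqrt q * s * (if q = 1 then ‖∫ u, gf ψ τ u‖ else 0) := by ring
    _ ≤ Real.sqrt L * (I1 + I2) + L * (2 * R) + L * (if q = 1 then ‖∫ u, gf ψ τ u‖ else 0) := by
        rw [e1]
        have h1 : 0 ≤ (if q = 1 then ‖∫ u, gf ψ τ u‖ else 0) := by split_ifs <;> positivity
        have h2 := mul_le_mul_of_nonneg_right e2 (by linarith : 0 ≤ 2 * R)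
        have h3 := mul_le_mul_of_nonneg_right e2 h1
        linarith
    _ = _ := by
        rw [e3]
        split_ifs <;> ring

end Pool.Agent.Helper62.M4
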